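import Mathlib

/-!
Elementary inequalities for binomial coefficients and the asymptotic estimates.
-/

namespace Pool.Agent.H95.GA

open Nat in
theorem fact_choose (n m : ℕ) :
    ((n.factorial : ℕ) : ℝ) * ((m + n - 1).choose n : ℝ) = (m.ascFactorial n : ℝ) := by
  rw [Nat.ascFactorial_eq_factorial_mul_choose']
  push_cast
  ring

theorem asc_ratio {r m : ℕ} (hrm : r ≤ m) (n : ℕ) :
    m.ascFactorial n * r ^ n ≤ r.ascFactorial n * m ^ n := by
  induction n with
  | zero => simp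
  | succ n ih =>
    rw [Nat.ascFactorial_succ, Nat.ascFactorial_succ, pow_succ, pow_succ]
    have h1 : (m + n) * r ≤ (r + n) * m := by nlinarith
    calc (m + n) * m.ascFactorial n * (r ^ n * r)
        = ((m + n) * r) * (m.ascFactorial n * r ^ n) := by ring
      _ ≤ ((r + n) * m) * (r.ascFactorial n * m ^ n) := Nat.mul_le_mul h1 ih
      _ = (r + n) * r.ascFactorial n * (m ^ n * m) := by ring

theorem pow_le_asc (m n : ℕ) : m ^ n ≤ m.ascFactorial n := by
  induction n with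
  | zero => simp
  | succ n ih =>
    rw [Nat.ascFactorial_succ, pow_succ, mul_comm]
    exact Nat.mul_le_mul (Nat.le_add_right _ _) ih

theorem asc_le_pow (r n k : ℕ) (hk : k ≤ n) : r.ascFactorial k ≤ (r + n) ^ k := by
  induction k with
  | zero => simp
  | succ k ih =>
    rw [Nat.ascFactorial_succ, pow_succ, mul_comm]
    exact Nat.mul_le_mul (ih (by omega)) (by omega)

/-- The quotient of the dimensions is at most `(m / r) ^ n`. -/
theorem ratio_le {r m n : ℕ} (hr : 1 ≤ r) (hrm : r ≤ m) :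
    ((m + n - 1).choose n : ℝ) / ((r + n - 1).choose n : ℝ) ≤ ((m : ℝ) / r) ^ n := by
  have hM : 0 < (r + n - 1).choose n := Nat.choose_pos (by omega)
  have hM' : (0 : ℝ) < ((r + n - 1).choose n : ℝ) := by exact_mod_cast hM
  have hr' : (0 : ℝ) < (r : ℝ) := by exact_mod_cast hr
  rw [div_pow, div_le_div_iff₀ hM' (by positivity)]
  have h1 : (m.ascFactorial n : ℝ) * (r : ℝ) ^ n ≤ (r.ascFactorial n : ℝ) * (m : ℝ) ^ n := by
    exact_mod_cast asc_ratio hrm n
  rw [← fact_choose, ← fact_choose] at h1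
  have hf : (0 : ℝ) < ((n.factorial : ℕ) : ℝ) := by exact_mod_cast Nat.factorial_pos n
  nlinarith

theorem one_add_pow_le (x : ℝ) (h0 : 0 ≤ x) (h1 : x ≤ 1) (n : ℕ) :
    (1 + x) ^ n ≤ 1 + (2 ^ n - 1) * x := by
  induction n with
  | zero => simp
  | succ n ih =>
    have h2 : (1 : ℝ) ≤ 2 ^ n := one_le_pow₀ (by norm_num)
    calc (1 + x) ^ (n + 1) = (1 + x) ^ n * (1 + x) := pow_succ _ _
      _ ≤ (1 + (2 ^ n - 1) * x) * (1 + x) := mul_le_mul_of_nonneg_right ih (by linarith)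
      _ = 1 + 2 ^ n * x + (2 ^ n - 1) * (x * x) := by ring
      _ ≤ 1 + 2 ^ n * x + (2 ^ n - 1) * (1 * x) := by
          have : x * x ≤ 1 * x := mul_le_mul_of_nonneg_right h1 h0
          have h3 : (0 : ℝ) ≤ 2 ^ n - 1 := by linarith
          linarith [mul_le_mul_of_nonneg_left this h3]
      _ = 1 + (2 ^ (n + 1) - 1) * x := by ring

/-- The number of sets in the covering. -/
theorem cover_bound {N r m : ℕ} (hr : N + 1 ≤ r) (hrm : r ≤ m) :
    ((((r - 1) / (r / (N + 1)) + 1) * ((m - 1) / (r / (N + 1)) + 1) ^ N : ℕ) : ℝ) ≤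
      (2 * ((N + 1 : ℕ) : ℝ) + 1) ^ (N + 1) * ((m : ℝ) / r) ^ N := by
  set h := r / (N + 1) with hh
  have hh1 : 1 ≤ h := by
    rw [hh, Nat.le_div_iff_mul_le (by omega)]
    omega
  have hlt : r < (N + 1) * h + (N + 1) := by
    have := Nat.lt_mul_div_succ r (show 0 < N + 1 by omega)
    rw [← hh] at this
    nlinarith
  have h2h : r + 1 ≤ 2 * (N + 1) * h := by nlinarith
  have hu : (r - 1) / h + 1 ≤ 2 * (N + 1) := by
    have : (r - 1) / h < 2 * (N + 1) := by
      rw [Nat.div_lt_iff_lt_mul (by omega)]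
      omega
    omega
  have hr' : (0 : ℝ) < (r : ℝ) := by
    have : 0 < r := by omega
    exact_mod_cast this
  have hh' : (0 : ℝ) < (h : ℝ) := by exact_mod_cast hh1
  have hp : (((m - 1) / h + 1 : ℕ) : ℝ) ≤ (2 * ((N + 1 : ℕ) : ℝ) + 1) * ((m : ℝ) / r) := by
    have h1 : (((m - 1) / h : ℕ) : ℝ) ≤ (m : ℝ) / h := by
      refine le_trans (Nat.cast_div_le) ?_
      apply div_le_div_of_nonneg_right _ hh'.le
      exact_mod_cast Nat.sub_le m 1
    have h2 : (m : ℝ) / h ≤ 2 * ((N + 1 : ℕ) : ℝ) * ((m : ℝ) / r) := by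
      rw [mul_div_assoc', div_le_div_iff₀ hh' hr']
      have h3 : (r : ℝ) ≤ 2 * ((N + 1 : ℕ) : ℝ) * h := by
        have : r ≤ 2 * (N + 1) * h := by omega
        exact_mod_cast this
      have hm0 : (0 : ℝ) ≤ (m : ℝ) := Nat.cast_nonneg _
      nlinarith
    have h4 : (1 : ℝ) ≤ (m : ℝ) / r := by
      rw [le_div_iff₀ hr', one_mul]
      exact_mod_cast hrm
    rw [Nat.cast_add, Nat.cast_one]
    linarith
  have hu' : (((r - 1) / h + 1 : ℕ) : ℝ) ≤ 2 * ((N + 1 : ℕ) : ℝ) + 1 := by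
    have : (((r - 1) / h + 1 : ℕ) : ℝ) ≤ ((2 * (N + 1) : ℕ) : ℝ) := by exact_mod_cast hu
    refine this.trans ?_
    push_cast
    linarith
  rw [Nat.cast_mul, Nat.cast_pow]
  calc (((r - 1) / h + 1 : ℕ) : ℝ) * (((m - 1) / h + 1 : ℕ) : ℝ) ^ N
      ≤ (2 * ((N + 1 : ℕ) : ℝ) + 1) * ((2 * ((N + 1 : ℕ) : ℝ) + 1) * ((m : ℝ) / r)) ^ N := by
        apply mul_le_mul hu' _ (by positivity) (by positivity)
        exact pow_le_pow_left₀ (Nat.cast_nonneg _) hp N
    _ = (2 * ((N + 1 : ℕ) : ℝ) + 1) ^ (N + 1) * ((m : ℝ) / r) ^ N := by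
        rw [mul_pow, pow_succ]
        ring

/-- The lower estimate. -/
theorem lower_est {n r m k : ℕ} {ε : ℝ} (hn : 1 ≤ n) (hr : 1 ≤ r)
    (hrn : n ≤ r) (hr1 : (2 : ℝ) ^ (n + 1) * n ≤ ε * r)
    (hr2 : 2 * (n.factorial : ℝ) * m ≤ ε * (r : ℝ) ^ (n - 1))
    (hk : (m + n - 1).choose n ≤ k * ((r + n - 1).choose n + r * m)) :
    (1 - ε) * ((m : ℝ) / r) ^ n ≤ k := by
  have hr' : (0 : ℝ) < (r : ℝ) := by exact_mod_cast hr
  have hf : (0 : ℝ) < ((n.factorial : ℕ) : ℝ) := by exact_mod_cast Nat.factorial_pos n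
  have hk0 : (0 : ℝ) ≤ (k : ℝ) := Nat.cast_nonneg _
  have h1 : ((m + n - 1).choose n : ℝ) ≤ k * ((r + n - 1).choose n + r * m) := by
    exact_mod_cast hk
  have h2 : (m : ℝ) ^ n ≤ (n.factorial : ℝ) * ((m + n - 1).choose n : ℝ) := by
    rw [fact_choose]
    exact_mod_cast pow_le_asc m n
  have h3 : (n.factorial : ℝ) * ((r + n - 1).choose n : ℝ) ≤ ((r : ℝ) + n) ^ n := by
    rw [fact_choose]
    exact_mod_cast asc_le_pow r n n le_rfl
  have h4 : (m : ℝ) ^ n ≤ k * (((r : ℝ) + n) ^ n + n.factorial * (r * m)) := by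
    calc (m : ℝ) ^ n ≤ (n.factorial : ℝ) * ((m + n - 1).choose n : ℝ) := h2
      _ ≤ (n.factorial : ℝ) * (k * ((r + n - 1).choose n + r * m)) :=
          mul_le_mul_of_nonneg_left h1 hf.le
      _ = k * ((n.factorial : ℝ) * ((r + n - 1).choose n : ℝ) + n.factorial * (r * m)) := by ring
      _ ≤ k * (((r : ℝ) + n) ^ n + n.factorial * (r * m)) := by
          apply mul_le_mul_of_nonneg_left _ hk0
          linarith
  -- divide by `r ^ n`
  have h5 : ((r : ℝ) + n) ^ n ≤ (1 + ε / 2) * (r : ℝ) ^ n := by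
    have hx : ((n : ℝ) / r) ≤ 1 := by
      rw [div_le_one hr']
      exact_mod_cast hrn
    have h6 := one_add_pow_le ((n : ℝ) / r) (by positivity) hx n
    have h7 : (1 + (n : ℝ) / r) ^ n * (r : ℝ) ^ n = ((r : ℝ) + n) ^ n := by
      rw [← mul_pow]
      congr 1
      field_simp
    rw [← h7]
    apply mul_le_mul_of_nonneg_right _ (by positivity)
    refine h6.trans ?_
    have h8 : ((2 : ℝ) ^ n - 1) * ((n : ℝ) / r) ≤ ε / 2 := by
      have h9 : ((2 : ℝ) ^ n - 1) * ((n : ℝ) / r) ≤ (2 : ℝ) ^ n * ((n : ℝ) / r) := by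
        apply mul_le_mul_of_nonneg_right _ (by positivity)
        linarith
      refine h9.trans ?_
      rw [mul_div_assoc', div_le_div_iff₀ hr' (by norm_num)]
      rw [pow_succ] at hr1
      nlinarith
    linarith
  have h10 : (n.factorial : ℝ) * (r * m) ≤ (ε / 2) * (r : ℝ) ^ n := by
    have h11 : (r : ℝ) ^ n = (r : ℝ) ^ (n - 1) * r := by
      rw [← pow_succ]
      congr 1
      omega
    rw [h11]
    nlinarith
  have h12 : (m : ℝ) ^ n ≤ k * ((1 + ε) * (r : ℝ) ^ n) := by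
    refine h4.trans ?_
    apply mul_le_mul_of_nonneg_left _ hk0
    linarith
  have h13 : ((m : ℝ) / r) ^ n ≤ k * (1 + ε) := by
    rw [div_pow, div_le_iff₀ (by positivity)]
    linarith
  rcases le_or_gt ε 1 with h | h
  · calc (1 - ε) * ((m : ℝ) / r) ^ n ≤ (1 - ε) * (k * (1 + ε)) :=
          mul_le_mul_of_nonneg_left h13 (by linarith)
      _ = k - k * ε ^ 2 := by ring
      _ ≤ k := by nlinarith [sq_nonneg ε]
  · have h14 : (0 : ℝ) ≤ ((m : ℝ) / r) ^ n := by positivity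
    nlinarith

end Pool.Agent.H95.GA
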