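import Pool.Agent.H42.GR.Blocks

/-!
Duality: if no nonzero form of degree `n` vanishes on `s` given subspaces of dimension at most `r`,
every form of degree `n` has rank at most `s` with respect to `Sub_r(S^n V)`.
-/

namespace Pool.Agent.H95.GA

open MvPolynomial Pool.Agent.H42.GR

variable {m : ℕ}

/-- The linear form with given coefficients. -/
noncomputable def lf (m : ℕ) : (Fin m → ℂ) →ₗ[ℂ] MvPolynomial (Fin m) ℂ where
  toFun a := ∑ i, a i • X i
  map_add' a b := by
    simp only [Pi.add_apply, add_smul, Finset.sum_add_distrib]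
  map_smul' c a := by
    simp only [Pi.smul_apply, smul_assoc, Finset.smul_sum, RingHom.id_apply]

theorem lf_apply (a : Fin m → ℂ) : lf m a = ∑ i, a i • X i := rfl

theorem lf_mem (a : Fin m → ℂ) : lf m a ∈ homogeneousSubmodule (Fin m) ℂ 1 := by
  rw [lf_apply]
  exact Submodule.sum_mem _ fun i _ => Submodule.smul_mem _ _ (isHomogeneous_X _ _)

/-- The dual form of a functional. -/
noncomputable def dualForm (n : ℕ) (φ : MvPolynomial (Fin m) ℂ →ₗ[ℂ] ℂ) :
    MvPolynomial (Fin m) ℂ :=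
  ∑ μ ∈ mons (Fin m) n, monomial μ ((μ.multinomial : ℂ) * φ (monomial μ 1))

theorem dualForm_isHomogeneous (n : ℕ) (φ : MvPolynomial (Fin m) ℂ →ₗ[ℂ] ℂ) :
    (dualForm n φ).IsHomogeneous n := by
  apply IsHomogeneous.sum
  intro μ hμ
  exact isHomogeneous_monomial _ (mem_mons.mp hμ)

theorem eval_dualForm (n : ℕ) (φ : MvPolynomial (Fin m) ℂ →ₗ[ℂ] ℂ) (a : Fin m → ℂ) :
    eval a (dualForm n φ) = φ (lf m a ^ n) := by
  classical
  have h1 : lf m a ^ n =
      ∑ μ ∈ mons (Fin m) n, ((μ.multinomial : ℂ) * μ.prod fun i k => a i ^ k) •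
        monomial μ 1 := by
    ext ν
    rw [lf_apply, coeff_linearCombination_X_pow_of_fintype, coeff_sum]
    simp only [coeff_smul, coeff_monomial, smul_eq_mul, mul_ite, mul_one, mul_zero]
    rw [Finset.sum_ite_eq']
    by_cases hν : ν.degree = n
    · rw [if_pos (mem_mons.mpr hν), if_pos]
      exact hν
    · rw [if_neg (fun h => hν (mem_mons.mp h)), if_neg]
      exact hν
  rw [h1]
  unfold dualForm
  rw [map_sum, map_sum]
  refine Finset.sum_congr rfl fun μ _ => ?_
  rw [eval_monomial, map_smul, smul_eq_mul]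
  ring

theorem apply_of_dualForm_eq_zero {n : ℕ} {φ : MvPolynomial (Fin m) ℂ →ₗ[ℂ] ℂ}
    (h : dualForm n φ = 0) {T : MvPolynomial (Fin m) ℂ} (hT : T.IsHomogeneous n) : φ T = 0 := by
  classical
  have hφ0 : ∀ μ ∈ mons (Fin m) n, φ (monomial μ 1) = 0 := by
    intro μ hμ
    have h1 : coeff μ (dualForm n φ) = 0 := by rw [h, coeff_zero]
    unfold dualForm at h1
    rw [coeff_sum] at h1
    simp only [coeff_monomial] at h1
    rw [Finset.sum_ite_eq', if_pos hμ] at h1
    rcases mul_eq_zero.mp h1 with h2 | h2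
    · exfalso
      have h3 : μ.multinomial ≠ 0 := by
        rw [Finsupp.multinomial_eq]
        exact (Nat.multinomial_pos _ _).ne'
      exact h3 (by exact_mod_cast h2)
    · exact h2
  rw [← formOf_coeff hT]
  unfold formOf
  rw [map_sum]
  refine Finset.sum_eq_zero fun μ _ => ?_
  have h1 : monomial μ.1 (coeff μ.1 T) = coeff μ.1 T • monomial μ.1 (1 : ℂ) := by
    rw [smul_monomial, smul_eq_mul, mul_one]
  rw [h1, map_smul, hφ0 μ.1 μ.2, smul_zero]

/-- Duality. -/
theorem rankLE_of_vanish {n r s : ℕ} (hr : r ≤ m) (W : Fin s → Submodule ℂ (Fin m → ℂ))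
    (hW : ∀ t, Module.finrank ℂ (W t) ≤ r)
    (h : ∀ F : MvPolynomial (Fin m) ℂ, F.IsHomogeneous n →
      (∀ t, ∀ a ∈ W t, eval a F = 0) → F = 0)
    (T : MvPolynomial (Fin m) ℂ) (hT : T.IsHomogeneous n) : RankLE (Fin m) n r s T := by
  have hW1 : ∀ t, (W t).map (lf m) ≤ homogeneousSubmodule (Fin m) ℂ 1 := by
    rintro t _ ⟨a, _, rfl⟩
    exact lf_mem a
  have hext : ∀ t, ∃ V' : Submodule ℂ (MvPolynomial (Fin m) ℂ), (W t).map (lf m) ≤ V' ∧
      V' ≤ homogeneousSubmodule (Fin m) ℂ 1 ∧ Module.finrank ℂ V' = r := by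
    intro t
    refine exists_between _ (homogeneousSubmodule (Fin m) ℂ 1) (hW1 t) r ?_
      (by rw [finrank_linear, Fintype.card_fin]; exact hr)
    exact (Submodule.finrank_map_le (lf m) (W t)).trans (hW t)
  choose V' hV1 hV2 hV3 using hext
  by_cases hmem : T ∈ ⨆ t, (V' t) ^ n
  · rw [Submodule.mem_iSup_iff_exists_finsupp] at hmem
    obtain ⟨t, ht, hsum⟩ := hmem
    refine ⟨fun j => t j, fun j => ⟨V' j, hV2 j, hV3 j, ht j⟩, ?_⟩
    rw [← hsum, Finsupp.sum_fintype _ _ (fun _ => rfl)]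
  · exfalso
    obtain ⟨φ, hφT, hφ⟩ := Submodule.exists_le_ker_of_notMem hmem
    apply hφT
    apply apply_of_dualForm_eq_zero _ hT
    apply h _ (dualForm_isHomogeneous n φ)
    intro t a ha
    rw [eval_dualForm]
    apply hφ
    apply Submodule.mem_iSup_of_mem t
    apply Submodule.pow_mem_pow
    exact hV1 t ⟨a, ha, rfl⟩

end Pool.Agent.H95.GA
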