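import Pool.Agent.H95.GA.Stab

/-!
The greedy step: a space of forms either loses `C(r + n - 1, n)` dimensions when restricted to a
suitable subspace of dimension `r`, or it is killed by coordinate subspaces (in suitable
coordinates) that cover all monomials involving one of the first `r` variables.
-/

namespace Pool.Agent.H95.GA

open MvPolynomial Pool.Agent.H42.GR

variable {m : ℕ}

/-- The projection to a coordinate subspace. -/
noncomputable def PC (S : Finset (Fin m)) : Matrix (Fin m) (Fin m) ℂ :=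
  Matrix.diagonal fun i => if i ∈ S then 1 else 0

theorem PC_lin (S : Finset (Fin m)) (k : Fin m) :
    ∑ i, C (PC S k i) * (X i : MvPolynomial (Fin m) ℂ) = if k ∈ S then X k else 0 := by
  rw [Finset.sum_eq_single k]
  · unfold PC
    rw [Matrix.diagonal_apply_eq]
    split_ifs
    · rw [C_1, one_mul]
    · rw [C_0, zero_mul]
  · intro i _ hi
    unfold PC
    rw [Matrix.diagonal_apply_ne _ (Ne.symm hi), C_0, zero_mul]
  · simp

theorem sub_PC_monomial (S : Finset (Fin m)) (u : Fin m →₀ ℕ) (a : ℂ) :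
    sub (PC S) (monomial u a) = if u.support ⊆ S then monomial u a else 0 := by
  unfold sub
  rw [aeval_monomial]
  simp only [PC_lin]
  split_ifs with h
  · rw [monomial_eq, algebraMap_eq]
    congr 1
    unfold Finsupp.prod
    refine Finset.prod_congr rfl fun i hi => ?_
    change (if i ∈ S then (X i : MvPolynomial (Fin m) ℂ) else 0) ^ u i = X i ^ u i
    rw [if_pos (h hi)]
  · rw [Finset.not_subset] at h
    obtain ⟨i, hi, hiS⟩ := h
    have h1 : (u.prod fun i k => (if i ∈ S then X i else 0 : MvPolynomial (Fin m) ℂ) ^ k) = 0 := by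
      unfold Finsupp.prod
      apply Finset.prod_eq_zero hi
      change (if i ∈ S then (X i : MvPolynomial (Fin m) ℂ) else 0) ^ u i = 0
      rw [if_neg hiS, zero_pow]
      exact Finsupp.mem_support_iff.mp hi
    rw [h1, mul_zero]

theorem coeff_sub_PC (S : Finset (Fin m)) (ν : Fin m →₀ ℕ) (hν : ν.support ⊆ S)
    (F : MvPolynomial (Fin m) ℂ) : coeff ν (sub (PC S) F) = coeff ν F := by
  induction F using MvPolynomial.induction_on' with
  | monomial u a =>
    rw [sub_PC_monomial]
    split_ifs with h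
    · rfl
    · rw [coeff_zero, coeff_monomial, if_neg]
      rintro rfl
      exact h hν
  | add P Q hP hQ => rw [map_add, coeff_add, coeff_add, hP, hQ]

/-- The first `r` variables. -/
def UU (m r : ℕ) : Finset (Fin m) := Finset.univ.filter fun i => (i : ℕ) < r

theorem card_UU {r : ℕ} (hr : r ≤ m) : (UU m r).card = r := by
  have h1 : UU m r = Finset.univ.map (Fin.castLEEmb hr) := by
    ext i
    unfold UU
    rw [Finset.mem_filter, Finset.mem_map]
    constructor
    · rintro ⟨_, h⟩
      exact ⟨⟨i, h⟩, Finset.mem_univ _, by ext; simp⟩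
    · rintro ⟨j, _, rfl⟩
      exact ⟨Finset.mem_univ _, by simp⟩
  rw [h1, Finset.card_map, Finset.card_univ, Fintype.card_fin]

/-- A strongly stable set with a monomial in the last variables contains all monomials in the
first variables. -/
theorem stable_full {n r D : ℕ} (c : Fin D → (Fin m →₀ ℕ)) (hc : ∀ b, (c b).degree = n)
    (hst : ∀ (b : Fin D) (i j : Fin m), j < i → c b i ≠ 0 →
        ∃ b', c b' = c b - Finsupp.single i 1 + Finsupp.single j 1)
    (b₀ : Fin D) (hb₀ : ∀ i, c b₀ i ≠ 0 → r ≤ (i : ℕ)) (k : ℕ) (hk : k ≤ n)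
    (ν : Fin m →₀ ℕ) (hν : ν.degree = k) (hνU : ∀ i, ν i ≠ 0 → (i : ℕ) < r) :
    ∃ (μ : Fin m →₀ ℕ) (b : Fin D), (∀ i, μ i ≠ 0 → r ≤ (i : ℕ)) ∧ μ.degree + k = n ∧
      c b = ν + μ := by
  induction k generalizing ν with
  | zero =>
    rw [Finsupp.degree_eq_zero_iff] at hν
    subst hν
    exact ⟨c b₀, b₀, hb₀, by rw [hc, add_zero], by rw [zero_add]⟩
  | succ k ih =>
    have hne : ν ≠ 0 := by
      rintro rfl
      rw [map_zero] at hν
      omega
    obtain ⟨j, hj⟩ := Finsupp.ne_iff.mp hne
    rw [Finsupp.zero_apply] at hj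
    have hν' : ν - Finsupp.single j 1 + Finsupp.single j 1 = ν := by
      apply tsub_add_cancel_of_le
      rw [Finsupp.single_le_iff]
      omega
    have hdeg : (ν - Finsupp.single j 1).degree = k := by
      have h1 := hν
      rw [← hν', map_add, Finsupp.degree_single] at h1
      omega
    obtain ⟨μ, b, hμ, hμk, hb⟩ := ih (by omega) (ν - Finsupp.single j 1) hdeg (by
      intro i hi
      apply hνU i
      intro h0
      apply hi
      rw [Finsupp.tsub_apply, h0, Nat.zero_sub])
    have hμ0 : μ ≠ 0 := by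
      rintro rfl
      rw [map_zero] at hμk
      omega
    obtain ⟨i, hi⟩ := Finsupp.ne_iff.mp hμ0
    rw [Finsupp.zero_apply] at hi
    have hμ' : μ - Finsupp.single i 1 + Finsupp.single i 1 = μ := by
      apply tsub_add_cancel_of_le
      rw [Finsupp.single_le_iff]
      omega
    have hji : j < i := by
      rw [Fin.lt_def]
      exact lt_of_lt_of_le (hνU j hj) (hμ i hi)
    obtain ⟨b', hb'⟩ := hst b i j hji (by
      rw [hb, Finsupp.add_apply]
      omega)
    refine ⟨μ - Finsupp.single i 1, b', ?_, ?_, ?_⟩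
    · intro l hl
      apply hμ l
      intro h0
      apply hl
      rw [Finsupp.tsub_apply, h0, Nat.zero_sub]
    · have h1 := hμk
      rw [← hμ', map_add, Finsupp.degree_single] at h1
      omega
    · have h1 : ν - Finsupp.single j 1 + μ =
          (ν - Finsupp.single j 1 + (μ - Finsupp.single i 1)) + Finsupp.single i 1 := by
        rw [add_assoc, hμ']
      have h2 : ν - Finsupp.single j 1 + (μ - Finsupp.single i 1) + Finsupp.single j 1 =
          (ν - Finsupp.single j 1 + Finsupp.single j 1) + (μ - Finsupp.single i 1) := by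
        rw [add_assoc, add_assoc, add_comm (μ - Finsupp.single i 1)]
      rw [hb', hb, h1, add_tsub_cancel_right, h2, hν']

/-- The dichotomy. -/
theorem dichotomy {n r : ℕ} (L : Submodule ℂ (MvPolynomial (Fin m) ℂ))
    [FiniteDimensional ℂ L] (hL : L ≤ homogeneousSubmodule (Fin m) ℂ n) :
    ∃ G : Matrix (Fin m) (Fin m) ℂ,
      (Module.finrank ℂ ↥(L ⊓ LinearMap.ker (sub (G * PC (UU m r))).toLinearMap) +
        ((UU m r).finsuppAntidiag n).card ≤ Module.finrank ℂ L) ∨
      (∀ (κ : Type) (S : κ → Finset (Fin m)),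
        (∀ ν : Fin m →₀ ℕ, ν.degree = n → (∃ i, ν i ≠ 0 ∧ (i : ℕ) < r) →
          ∃ k, ν.support ⊆ S k) →
        ∀ F ∈ L, (∀ k, sub (G * PC (S k)) F = 0) → F = 0) := by
  classical
  set D := Module.finrank ℂ L with hD
  set β := Module.finBasis ℂ L with hβ
  set f : Fin D → MvPolynomial (Fin m) ℂ := fun a => (β a : MvPolynomial (Fin m) ℂ) with hf
  have hfh : ∀ a, (f a).IsHomogeneous n := fun a => hL (β a).2
  have hli : LinearIndependent ℂ f := β.linearIndependent.map' L.subtype (Submodule.ker_subtype L)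
  obtain ⟨G, c, hdeg, hdet, hst⟩ := exists_stable f hfh hli
  set A : Matrix (Fin D) (Fin D) ℂ := Matrix.of fun a b => coeff (c b) (sub G (f a)) with hA
  refine ⟨G, ?_⟩
  -- coordinates
  have hco : ∀ (z : Fin D → ℂ) (b : Fin D),
      coeff (c b) (sub G (∑ a, z a • f a)) = Matrix.vecMul z A b := by
    intro z b
    rw [map_sum, coeff_sum, Matrix.vecMul, dotProduct]
    refine Finset.sum_congr rfl fun a _ => ?_
    rw [map_smul, coeff_smul, smul_eq_mul, hA, Matrix.of_apply]
  have hrep : ∀ F ∈ L, ∃ z : Fin D → ℂ, F = ∑ a, z a • f a := by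
    intro F hF
    refine ⟨fun a => β.repr ⟨F, hF⟩ a, ?_⟩
    have h1 := congrArg L.subtype (β.sum_repr ⟨F, hF⟩)
    rw [map_sum] at h1
    exact h1.symm
  have hzero : ∀ F ∈ L, (∀ b, coeff (c b) (sub G F) = 0) → F = 0 := by
    intro F hF h0
    obtain ⟨z, rfl⟩ := hrep F hF
    have h1 : Matrix.vecMul z A = 0 := by
      funext b
      rw [← hco, h0 b, Pi.zero_apply]
    have h2 := Matrix.eq_zero_of_vecMul_eq_zero hdet h1
    rw [h2]
    simp
  by_cases hcase : ∃ b, ∀ i, c b i ≠ 0 → r ≤ (i : ℕ)
  · left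
    obtain ⟨b₀, hb₀⟩ := hcase
    have hfull : ∀ ν ∈ (UU m r).finsuppAntidiag n, ∃ b, c b = ν := by
      intro ν hν
      rw [Finset.mem_finsuppAntidiag'] at hν
      have hνd : ν.degree = n := hν.1
      obtain ⟨μ, b, _, hμ, hb⟩ := stable_full c hdeg hst b₀ hb₀ n le_rfl ν hνd (by
        intro i hi
        have := hν.2 (Finsupp.mem_support_iff.mpr hi)
        unfold UU at this
        rw [Finset.mem_filter] at this
        exact this.2)
      have h0 : μ = 0 := by
        rw [← Finsupp.degree_eq_zero_iff]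
        omega
      exact ⟨b, by rw [hb, h0, add_zero]⟩
    set Θ : L →ₗ[ℂ] (↥((UU m r).finsuppAntidiag n) → ℂ) :=
      LinearMap.pi fun ν => (lcoeff ℂ ν.1) ∘ₗ (sub G).toLinearMap ∘ₗ L.subtype with hΘ
    have hΘa : ∀ (F : L) (ν : ↥((UU m r).finsuppAntidiag n)),
        Θ F ν = coeff ν.1 (sub G F.1) := fun F ν => rfl
    have hsurj : LinearMap.range Θ = ⊤ := by
      rw [LinearMap.range_eq_top]
      intro y
      set x : Fin D → ℂ := fun b => if h : c b ∈ (UU m r).finsuppAntidiag n then y ⟨c b, h⟩ else 0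
        with hx
      set z := Matrix.vecMul x A⁻¹ with hz
      have hmem : ∑ a, z a • f a ∈ L :=
        Submodule.sum_mem _ fun a _ => Submodule.smul_mem _ _ (β a).2
      refine ⟨⟨∑ a, z a • f a, hmem⟩, ?_⟩
      funext ν
      obtain ⟨b, hb⟩ := hfull ν.1 ν.2
      rw [hΘa]
      simp only
      rw [← hb, hco, hz, Matrix.vecMul_vecMul, Matrix.nonsing_inv_mul _ (Ne.isUnit hdet),
        Matrix.vecMul_one, hx]
      have h1 : c b ∈ (UU m r).finsuppAntidiag n := by rw [hb]; exact ν.2
      simp only [dif_pos h1]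
      congr 1
      exact Subtype.ext hb
    have hrank := LinearMap.finrank_range_add_finrank_ker Θ
    rw [hsurj, finrank_top, Module.finrank_fintype_fun_eq_card, Fintype.card_coe] at hrank
    have hle : L ⊓ LinearMap.ker (sub (G * PC (UU m r))).toLinearMap ≤
        (LinearMap.ker Θ).map L.subtype := by
      rintro F ⟨hFL, hF⟩
      refine ⟨⟨F, hFL⟩, ?_, rfl⟩
      rw [SetLike.mem_coe, LinearMap.mem_ker]
      funext ν
      rw [hΘa, Pi.zero_apply]
      have hν := ν.2
      rw [Finset.mem_finsuppAntidiag'] at hν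
      rw [← coeff_sub_PC (UU m r) ν.1 hν.2, Pool.Agent.H42.GR.sub_sub]
      have h2 : sub (G * PC (UU m r)) F = 0 := hF
      simp only
      rw [h2, coeff_zero]
    have h3 := Submodule.finrank_mono hle
    rw [Submodule.finrank_map_subtype_eq] at h3
    omega
  · right
    push Not at hcase
    intro κ S hS F hF hF0
    apply hzero F hF
    intro b
    obtain ⟨i, hi, hir⟩ := hcase b
    obtain ⟨k, hk⟩ := hS (c b) (hdeg b) ⟨i, hi, hir⟩
    rw [← coeff_sub_PC (S k) (c b) hk, Pool.Agent.H42.GR.sub_sub, hF0 k, coeff_zero]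

end Pool.Agent.H95.GA
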