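import Pool.Agent.H95.GA.Points
import Pool.Agent.H95.GA.Dual
import Pool.Agent.H95.GA.Greedy

/-!
The explicit subspaces: the variables are divided into `b` blocks of at most `q` variables; the
`t`-th subspace is spanned by one generic linear form in every block except some blocks which are
distributed cyclically.
-/

namespace Pool.Agent.H95.GA

open MvPolynomial Pool.Agent.H42.GR

variable {m : ℕ}

/-- The values of `t` for which the block `i` is left out. -/
def Zs (s z : ℕ) (hs : 0 < s) (i : ℕ) : Finset (Fin s) :=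
  (Finset.range z).image fun u => ⟨(i * z + u) % s, Nat.mod_lt _ hs⟩

theorem card_Zs (s z : ℕ) (hs : 0 < s) (i : ℕ) : (Zs s z hs i).card ≤ z := by
  unfold Zs
  exact Finset.card_image_le.trans (Finset.card_range z).le

/-- The blocks that are used for `t`. -/
def It (b s z : ℕ) (hs : 0 < s) (t : Fin s) : Finset (Fin b) :=
  Finset.univ.filter fun i => t ∉ Zs s z hs (i : ℕ)

theorem card_It {b s z : ℕ} (hs : 0 < s) (hzs : z ≤ s) (t : Fin s) :
    (It b s z hs t).card ≤ b - b * z / s := by
  classical
  have h1 : b * z / s ≤ (Finset.univ.filter fun i : Fin b => t ∈ Zs s z hs (i : ℕ)).card := by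
    have h2 : b * z / s ≤ ((Finset.range (b * z)).filter fun N => N % s = t).card := by
      have h3 := Nat.count_modEq_card (b * z) hs (t : ℕ)
      rw [Nat.count_eq_card_filter_range] at h3
      have h4 : ((Finset.range (b * z)).filter fun N => N % s = t) =
          ((Finset.range (b * z)).filter fun N => N ≡ (t : ℕ) [MOD s]) := by
        apply Finset.filter_congr
        intro N _
        rw [Nat.ModEq, Nat.mod_eq_of_lt t.2]
      rw [h4, h3]
      exact Nat.le_add_right _ _
    have h6 : (Finset.univ.filter fun i : Fin b => t ∈ Zs s z hs (i : ℕ)).card =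
        ((Finset.range b).filter fun i => t ∈ Zs s z hs i).card := by
      rw [Finset.card_filter, Finset.card_filter,
        Fin.sum_univ_eq_sum_range (fun i => if t ∈ Zs s z hs i then 1 else 0)]
    rw [h6]
    refine h2.trans ?_
    by_cases hz : z = 0
    · subst hz
      simp
    · have hz' : 0 < z := Nat.pos_of_ne_zero hz
      refine Finset.card_le_card_of_injOn (fun N => N / z) ?_ ?_
      · intro N hN
        rw [Finset.mem_coe, Finset.mem_filter, Finset.mem_range] at hN
        rw [Finset.mem_coe, Finset.mem_filter, Finset.mem_range]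
        refine ⟨(Nat.div_lt_iff_lt_mul hz').mpr hN.1, ?_⟩
        unfold Zs
        rw [Finset.mem_image]
        refine ⟨N % z, Finset.mem_range.mpr (Nat.mod_lt _ hz'), ?_⟩
        apply Fin.ext
        simp only
        rw [mul_comm, Nat.div_add_mod, hN.2]
      · -- injectivity
        have key : ∀ N N' : ℕ, N ≤ N' → N / z = N' / z → N % s = N' % s → N = N' := by
          intro N N' hle h7 h8
          have h9 : s ∣ N' - N := (Nat.modEq_iff_dvd' hle).mp h8
          have h10 := Nat.div_add_mod N z
          have h11 := Nat.div_add_mod N' z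
          rw [← h7] at h11
          have h12 := Nat.mod_lt N hz'
          have h13 := Nat.mod_lt N' hz'
          have h14 := Nat.eq_zero_of_dvd_of_lt h9 (by omega)
          omega
        intro N hN N' hN' h
        rw [Finset.mem_coe, Finset.mem_filter] at hN hN'
        simp only at h
        rcases Nat.le_total N N' with h7 | h7
        · exact key N N' h7 h (by rw [hN.2, hN'.2])
        · exact (key N' N h7 h.symm (by rw [hN.2, hN'.2])).symm
  have h5 := Finset.card_filter_add_card_filter_not (s := (Finset.univ : Finset (Fin b)))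
    (fun i : Fin b => t ∈ Zs s z hs (i : ℕ))
  rw [Finset.card_univ, Fintype.card_fin] at h5
  unfold It
  omega

/-- The subspace with number `t`. -/
noncomputable def Lam {b : ℕ} (bl : Fin m → Fin b) (I : Finset (Fin b)) (y : Fin m → ℂ) :
    (↥I → ℂ) →ₗ[ℂ] (Fin m → ℂ) where
  toFun l v := if h : bl v ∈ I then l ⟨bl v, h⟩ * y v else 0
  map_add' l l' := by
    funext v
    rw [Pi.add_apply]
    split_ifs
    · rw [Pi.add_apply, add_mul]
    · rw [add_zero]
  map_smul' c l := by
    funext v
    rw [Pi.smul_apply, RingHom.id_apply, smul_eq_mul]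
    split_ifs
    · rw [Pi.smul_apply, smul_eq_mul, mul_assoc]
    · rw [mul_zero]

theorem finrank_Lam {b : ℕ} (bl : Fin m → Fin b) (I : Finset (Fin b)) (y : Fin m → ℂ) :
    Module.finrank ℂ (LinearMap.range (Lam bl I y)) ≤ I.card := by
  refine (LinearMap.finrank_range_le _).trans ?_
  rw [Module.finrank_fintype_fun_eq_card, Fintype.card_coe]

/-- Substitution of block variables. -/
noncomputable def bsub {b : ℕ} (bl : Fin m → Fin b) (y : Fin m → ℂ)
    (F : MvPolynomial (Fin m) ℂ) : MvPolynomial (Fin b) ℂ :=
  rename bl (aeval (fun v => C (y v) * (X v : MvPolynomial (Fin m) ℂ)) F)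

theorem eval_bsub {b : ℕ} (bl : Fin m → Fin b) (y : Fin m → ℂ) (l : Fin b → ℂ)
    (F : MvPolynomial (Fin m) ℂ) :
    eval l (bsub bl y F) = eval (fun v => y v * l (bl v)) F := by
  unfold bsub
  rw [eval_rename, eval_aeval]
  congr 2
  funext v
  rw [map_mul, eval_C, eval_X]
  rfl

theorem bsub_monomial {b : ℕ} (bl : Fin m → Fin b) (y : Fin m → ℂ) (μ : Fin m →₀ ℕ) (c : ℂ) :
    bsub bl y (monomial μ c) = monomial (μ.mapDomain bl) (c * ∏ v, y v ^ μ v) := by
  unfold bsub
  rw [aeval_monomial, ← rename_monomial]
  congr 1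
  rw [Finsupp.prod_fintype _ _ (fun _ => pow_zero _), algebraMap_eq, monomial_eq,
    Finsupp.prod_fintype _ _ (fun _ => pow_zero _), C_mul, mul_assoc]
  congr 1
  rw [map_prod, ← Finset.prod_mul_distrib]
  refine Finset.prod_congr rfl fun v _ => ?_
  rw [mul_pow, C_pow]

theorem coeff_bsub {n b : ℕ} (bl : Fin m → Fin b) (y : Fin m → ℂ)
    {F : MvPolynomial (Fin m) ℂ} (hF : F.IsHomogeneous n) (β : Fin b →₀ ℕ) :
    coeff β (bsub bl y F) = ∑ μ ∈ (mons (Fin m) n).filter fun μ => μ.mapDomain bl = β,
      coeff μ F * ∏ v, y v ^ μ v := by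
  classical
  have h1 : bsub bl y F = ∑ μ ∈ mons (Fin m) n,
      monomial (μ.mapDomain bl) (coeff μ F * ∏ v, y v ^ μ v) := by
    have h2 : F = ∑ μ ∈ mons (Fin m) n, monomial μ (coeff μ F) := by
      conv_lhs => rw [← formOf_coeff hF]
      unfold formOf
      exact Finset.sum_coe_sort (mons (Fin m) n) (fun μ => monomial μ (coeff μ F))
    have h3 : bsub bl y (∑ μ ∈ mons (Fin m) n, monomial μ (coeff μ F)) =
        ∑ μ ∈ mons (Fin m) n, bsub bl y (monomial μ (coeff μ F)) := by
      unfold bsub
      rw [map_sum, map_sum]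
    rw [← h2] at h3
    rw [h3]
    exact Finset.sum_congr rfl fun μ _ => bsub_monomial bl y μ _
  rw [h1, coeff_sum, Finset.sum_filter]
  refine Finset.sum_congr rfl fun μ _ => ?_
  rw [coeff_monomial]

/-- The upper bound for the maximal rank by the explicit construction. -/
theorem rankLE_design {n q b z s r : ℕ} (hn : 1 ≤ n) (hq : 1 ≤ q) (hs : s = q ^ n + n * z)
    (hm : m ≤ q * b) (hr : r ≤ m) (hrb : b - b * z / s ≤ r)
    (T : MvPolynomial (Fin m) ℂ) (hT : T.IsHomogeneous n) : RankLE (Fin m) n r s T := by
  classical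
  have hqn : 1 ≤ q ^ n := Nat.one_le_pow _ _ hq
  have hs0 : 0 < s := by omega
  have hzs : z ≤ s := by
    rw [hs]
    nlinarith
  set bl : Fin m → Fin b := fun v => ⟨(v : ℕ) / q, by
    rw [Nat.div_lt_iff_lt_mul hq, mul_comm]
    exact lt_of_lt_of_le v.2 hm⟩ with hbl
  have hblc : ∀ i, (Finset.univ.filter fun v => bl v = i).card ≤ q := by
    intro i
    have h4 := Finset.card_le_card_of_injOn (s := Finset.univ.filter fun v => bl v = i)
      (t := Finset.range q) (fun x : Fin m => (x : ℕ) % q) (fun x _ => by
        rw [Finset.mem_coe, Finset.mem_range]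
        exact Nat.mod_lt _ hq) (by
        intro x hx x' hx' hxx
        rw [Finset.mem_coe, Finset.mem_filter] at hx hx'
        simp only at hxx
        have h5 : (x : ℕ) / q = (x' : ℕ) / q := by
          have h6 := hx.2.trans hx'.2.symm
          exact Fin.ext_iff.mp h6
        apply Fin.ext
        rw [← Nat.div_add_mod (x : ℕ) q, ← Nat.div_add_mod (x' : ℕ) q, h5, hxx])
    rwa [Finset.card_range] at h4
  -- the values of `t` that are available for a block type
  set Tb : (Fin b →₀ ℕ) → Finset (Fin s) := fun β =>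
    Finset.univ.filter fun t => ∀ i, β i ≠ 0 → t ∉ Zs s z hs0 (i : ℕ) with hTb
  have hTbc : ∀ β ∈ mons (Fin b) n, q ^ n ≤ (Tb β).card := by
    intro β hβ
    have h1 : (β.support.biUnion fun i => Zs s z hs0 (i : ℕ)).card ≤ n * z := by
      refine Finset.card_biUnion_le.trans ?_
      refine (Finset.sum_le_card_nsmul β.support (fun i => (Zs s z hs0 (i : ℕ)).card) z
        fun i _ => card_Zs s z hs0 i).trans ?_
      rw [smul_eq_mul]
      apply Nat.mul_le_mul_right
      rw [← mem_mons.mp hβ, Finsupp.degree_apply, Finset.card_eq_sum_ones]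
      exact Finset.sum_le_sum fun i hi =>
        Nat.one_le_iff_ne_zero.mpr (Finsupp.mem_support_iff.mp hi)
    have h2 : (Finset.univ : Finset (Fin s)) ⊆
        Tb β ∪ β.support.biUnion fun i => Zs s z hs0 (i : ℕ) := by
      intro t _
      rw [Finset.mem_union]
      by_cases ht : t ∈ Tb β
      · exact Or.inl ht
      · right
        rw [hTb, Finset.mem_filter, not_and] at ht
        have h3 := ht (Finset.mem_univ _)
        push Not at h3
        obtain ⟨i, hi, hit⟩ := h3
        rw [Finset.mem_biUnion]
        exact ⟨i, Finsupp.mem_support_iff.mpr hi, hit⟩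
    have h3 := (Finset.card_le_card h2).trans (Finset.card_union_le _ _)
    rw [Finset.card_univ, Fintype.card_fin] at h3
    omega
  obtain ⟨y, hy⟩ := exists_points (n := n) (s := s) (mons (Fin b) n)
    (fun β => (mons (Fin m) n).filter fun μ => μ.mapDomain bl = β) Tb
    (fun β _ μ hμ => mem_mons.mp (Finset.mem_filter.mp hμ).1)
    (fun β hβ => (card_type_le bl hblc n β).trans (hTbc β hβ))
  refine rankLE_of_vanish hr (fun t => LinearMap.range (Lam bl (It b s z hs0 t) (y t)))
    (fun t => (finrank_Lam _ _ _).trans ((card_It hs0 hzs t).trans hrb)) ?_ T hT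
  intro F hF hF0
  have hco : ∀ μ ∈ mons (Fin m) n, coeff μ F = 0 := by
    intro μ hμ
    have hβ : μ.mapDomain bl ∈ mons (Fin b) n := by
      rw [mem_mons, degree_mapDomain]
      exact mem_mons.mp hμ
    refine hy _ hβ (fun μ => coeff μ F) ?_ μ (Finset.mem_filter.mpr ⟨hμ, rfl⟩)
    intro t ht
    rw [← coeff_bsub bl (y t) hF]
    have hsub : (μ.mapDomain bl).support ⊆ It b s z hs0 t := by
      intro i hi
      rw [hTb, Finset.mem_filter] at ht
      unfold It
      rw [Finset.mem_filter]
      exact ⟨Finset.mem_univ _, ht.2 i (Finsupp.mem_support_iff.mp hi)⟩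
    rw [← coeff_sub_PC _ _ hsub]
    have h0 : sub (PC (It b s z hs0 t)) (bsub bl (y t) F) = 0 := by
      apply MvPolynomial.funext
      intro l
      rw [map_zero]
      have h1 : eval l (sub (PC (It b s z hs0 t)) (bsub bl (y t) F)) =
          eval (fun i => if i ∈ It b s z hs0 t then l i else 0) (bsub bl (y t) F) := by
        unfold sub
        rw [eval_aeval]
        congr 2
        funext i
        rw [PC_lin]
        split_ifs
        · rw [eval_X]
        · rw [map_zero]
      rw [h1, eval_bsub]
      apply hF0 t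
      refine ⟨fun i => l i.1, ?_⟩
      funext v
      unfold Lam
      simp only [LinearMap.coe_mk, AddHom.coe_mk]
      split_ifs
      · rw [mul_comm]
      · rw [mul_zero]
    rw [h0, coeff_zero]
  rw [← formOf_coeff hF]
  unfold formOf
  refine Finset.sum_eq_zero fun μ _ => ?_
  simp only
  rw [hco μ.1 μ.2, map_zero]

end Pool.Agent.H95.GA
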