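import Pool.Agent.H95.GA.Greedy
import Pool.Agent.H42.GR.Blocks

/-!
The lower bound: an element of `Sub_r(S^n V)` depends on `r (m - r) + C(r + n - 1, n)` parameters.
-/

namespace Pool.Agent.H95.GA

open MvPolynomial Pool.Agent.H42.GR

variable {m : ℕ}

/-- A form in `r` linear forms. -/
noncomputable def Gform {S : Type} [CommRing S] (r n : ℕ) (a : Fin m → ↥(UU m r) → S)
    (q : ↥((UU m r).finsuppAntidiag n) → S) : MvPolynomial (Fin m) S :=
  ∑ ν, C (q ν) * ∏ l : ↥(UU m r), (∑ i, C (a i l) * X i) ^ (ν.1 l.1)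

theorem Gform_map {S S' : Type} [CommRing S] [CommRing S'] (φ : S →+* S') (r n : ℕ)
    (a : Fin m → ↥(UU m r) → S) (q : ↥((UU m r).finsuppAntidiag n) → S) :
    map φ (Gform r n a q) = Gform r n (fun i l => φ (a i l)) (fun ν => φ (q ν)) := by
  unfold Gform
  simp only [map_sum, map_mul, map_prod, map_pow, map_C, map_X]

theorem Gform_of_aeval {n r : ℕ} (A : Fin m → Fin m → ℂ) {Q : MvPolynomial (Fin m) ℂ}
    (hQ : Q.IsHomogeneous n) :
    aeval (fun l => if l ∈ UU m r then ∑ k, C (A k l) * (X k : MvPolynomial (Fin m) ℂ) else 0) Q =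
      Gform r n (fun i l => A i l.1) (fun ν => coeff ν.1 Q) := by
  classical
  have hexp : aeval (fun l => if l ∈ UU m r then ∑ k, C (A k l) *
      (X k : MvPolynomial (Fin m) ℂ) else 0) Q = ∑ μ ∈ mons (Fin m) n,
      aeval (fun l => if l ∈ UU m r then ∑ k, C (A k l) *
        (X k : MvPolynomial (Fin m) ℂ) else 0) (C (coeff μ Q) * ∏ i, X i ^ μ i) := by
    rw [← map_sum, ← eq_sum_mons hQ]
  rw [hexp]
  have hsub : (UU m r).finsuppAntidiag n ⊆ mons (Fin m) n := by
    intro ν hν
    rw [Finset.mem_finsuppAntidiag'] at hν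
    exact mem_mons.mpr hν.1
  rw [← Finset.sum_subset hsub]
  · unfold Gform
    rw [← Finset.sum_coe_sort]
    refine Finset.sum_congr rfl fun ν _ => ?_
    rw [map_mul, aeval_C, algebraMap_eq, map_prod]
    congr 1
    have h1 : ∏ l : ↥(UU m r), (∑ i, C (A i l.1) * (X i : MvPolynomial (Fin m) ℂ)) ^ (ν.1 l.1) =
        ∏ l ∈ UU m r, (∑ i, C (A i l) * (X i : MvPolynomial (Fin m) ℂ)) ^ (ν.1 l) :=
      Finset.prod_coe_sort (UU m r)
        (fun l => (∑ i, C (A i l) * (X i : MvPolynomial (Fin m) ℂ)) ^ (ν.1 l))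
    rw [h1, ← Finset.prod_subset (Finset.subset_univ (UU m r))]
    · refine Finset.prod_congr rfl fun l hl => ?_
      rw [map_pow, aeval_X, if_pos hl]
    · intro l _ hl
      have h2 := ν.2
      rw [Finset.mem_finsuppAntidiag'] at h2
      have h3 : ν.1 l = 0 := by
        by_contra hne
        exact hl (h2.2 (Finsupp.mem_support_iff.mpr hne))
      rw [h3, pow_zero, map_one]
  · intro ν hν hν'
    rw [Finset.mem_finsuppAntidiag', not_and_or] at hν'
    rcases hν' with h | h
    · exact absurd (mem_mons.mp hν) h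
    · rw [Finset.not_subset] at h
      obtain ⟨l, hl, hlU⟩ := h
      rw [map_mul, map_prod]
      have h2 : ∏ i, (aeval fun l => if l ∈ UU m r then ∑ k, C (A k l) * X k else 0)
          ((X i : MvPolynomial (Fin m) ℂ) ^ ν i) = 0 := by
        apply Finset.prod_eq_zero (Finset.mem_univ l)
        rw [map_pow, aeval_X, if_neg hlU, zero_pow (Finsupp.mem_support_iff.mp hl)]
      rw [h2, mul_zero]

/-- The linear forms with given coefficients. -/
noncomputable def lfs {r : ℕ} (a : Fin m → ↥(UU m r) → ℂ) (l : ↥(UU m r)) :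
    MvPolynomial (Fin m) ℂ :=
  ∑ i, C (a i l) * X i

theorem exists_Gform_of_span {n r : ℕ} (a : Fin m → ↥(UU m r) → ℂ)
    {V' : Submodule ℂ (MvPolynomial (Fin m) ℂ)} (hV' : V' ≤ Submodule.span ℂ (Set.range (lfs a)))
    {T : MvPolynomial (Fin m) ℂ} (hT : T ∈ V' ^ n) :
    ∃ q : ↥((UU m r).finsuppAntidiag n) → ℂ, T = Gform r n a q := by
  classical
  set A : Fin m → Fin m → ℂ := fun k l => if h : l ∈ UU m r then a k ⟨l, h⟩ else 0 with hA
  set v : Fin m → MvPolynomial (Fin m) ℂ := fun l => if l ∈ UU m r then ∑ k, C (A k l) * X k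
    else 0 with hv
  have hspan : V' ≤ Submodule.span ℂ (Set.range v) := by
    refine hV'.trans ?_
    rw [Submodule.span_le]
    rintro _ ⟨l, rfl⟩
    apply Submodule.subset_span
    refine ⟨l.1, ?_⟩
    simp only [hv]
    rw [if_pos l.2]
    unfold lfs
    refine Finset.sum_congr rfl fun k _ => ?_
    simp only [hA]
    rw [dif_pos l.2]
  have hpow : V' ^ n ≤ Submodule.map (aeval v : MvPolynomial (Fin m) ℂ →ₐ[ℂ]
      MvPolynomial (Fin m) ℂ).toLinearMap (homogeneousSubmodule (Fin m) ℂ n) := by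
    have h1 : V' ≤ Submodule.map (aeval v : MvPolynomial (Fin m) ℂ →ₐ[ℂ]
        MvPolynomial (Fin m) ℂ).toLinearMap (homogeneousSubmodule (Fin m) ℂ 1) := by
      refine hspan.trans ?_
      rw [Submodule.span_le]
      rintro _ ⟨l, rfl⟩
      refine ⟨X l, isHomogeneous_X _ _, ?_⟩
      simp
    have h2 : V' ^ n ≤ (Submodule.map (aeval v : MvPolynomial (Fin m) ℂ →ₐ[ℂ]
        MvPolynomial (Fin m) ℂ).toLinearMap (homogeneousSubmodule (Fin m) ℂ 1)) ^ n :=
      pow_le_pow_left' h1 n
    refine h2.trans ?_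
    rw [← Submodule.map_pow]
    apply Submodule.map_mono
    have h3 : ∀ N : ℕ, (homogeneousSubmodule (Fin m) ℂ 1) ^ N ≤
        homogeneousSubmodule (Fin m) ℂ N := by
      intro N
      induction N with
      | zero =>
        rw [pow_zero, Submodule.one_le]
        exact isHomogeneous_one _ _
      | succ N ih =>
        rw [pow_succ]
        exact (mul_le_mul' ih le_rfl).trans (homogeneousSubmodule_mul N 1)
    exact h3 n
  obtain ⟨Q, hQ, hQT⟩ := hpow hT
  refine ⟨fun ν => coeff ν.1 Q, ?_⟩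
  rw [← hQT]
  change aeval v Q = _
  rw [hv, Gform_of_aeval A hQ]
  congr 1
  funext i l
  simp only [hA]
  rw [dif_pos l.2]

theorem lin_eq {p : MvPolynomial (Fin m) ℂ} (hp : p.IsHomogeneous 1) :
    p = ∑ i, C (coeff (Finsupp.single i 1) p) * X i := by
  classical
  have h1 : p ∈ Submodule.span ℂ (Set.range (X : Fin m → MvPolynomial (Fin m) ℂ)) := by
    rw [← homogeneousSubmodule_one_eq]
    exact hp
  rw [Submodule.mem_span_range_iff_exists_fun] at h1
  obtain ⟨c, hc⟩ := h1
  have h2 : ∀ i, coeff (Finsupp.single i 1) p = c i := by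
    intro i
    rw [← hc, coeff_sum, Finset.sum_eq_single i]
    · rw [coeff_smul, coeff_X, if_pos rfl, smul_eq_mul, mul_one]
    · intro j _ hj
      rw [coeff_smul, coeff_X, if_neg, smul_zero]
      intro h
      exact hj (Finsupp.single_left_injective one_ne_zero h)
    · simp
  rw [← hc]
  refine Finset.sum_congr rfl fun i _ => ?_
  rw [hc, h2, smul_eq_C_mul]

theorem exists_Gform {n r : ℕ} (hr : r ≤ m) {T : MvPolynomial (Fin m) ℂ}
    (hT : InSub (Fin m) n r T) :
    ∃ (a : Fin m → ↥(UU m r) → ℂ) (q : ↥((UU m r).finsuppAntidiag n) → ℂ),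
      T = Gform r n a q := by
  classical
  obtain ⟨V', hV1, hVr, hTV⟩ := hT
  have hfin : FiniteDimensional ℂ V' := Submodule.finiteDimensional_of_le hV1
  have e : Fin (Module.finrank ℂ V') ≃ ↥(UU m r) := by
    apply Fintype.equivOfCardEq
    rw [Fintype.card_fin, Fintype.card_coe, card_UU hr, hVr]
  set B := (Module.finBasis ℂ V').reindex e with hB
  set a : Fin m → ↥(UU m r) → ℂ := fun i l => coeff (Finsupp.single i 1) (B l : V').1 with ha
  have hspan : V' ≤ Submodule.span ℂ (Set.range (lfs a)) := by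
    intro x hx
    have h1 : (⟨x, hx⟩ : V') = ∑ l, B.repr ⟨x, hx⟩ l • B l := (B.sum_repr _).symm
    have h2 : x = ∑ l, B.repr ⟨x, hx⟩ l • (B l : V').1 := by
      have := congrArg (V'.subtype) h1
      rw [map_sum] at this
      exact this
    rw [h2]
    refine Submodule.sum_mem _ fun l _ => Submodule.smul_mem _ _ (Submodule.subset_span ?_)
    exact ⟨l, (lin_eq (hV1 (B l).2)).symm⟩
  obtain ⟨q, hq⟩ := exists_Gform_of_span a hspan hTV
  exact ⟨a, q, hq⟩

/-- The normalised coefficients. -/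
def nrm {S : Type} [CommRing S] {r : ℕ} (a : ↥(UU m r)ᶜ → ↥(UU m r) → S) (i : Fin m)
    (l : ↥(UU m r)) : S :=
  if h : i ∈ (UU m r)ᶜ then a ⟨i, h⟩ l else if i = l.1 then 1 else 0

/-- Normalisation of the linear forms. -/
theorem exists_nrm {n r : ℕ} (a : Fin m → ↥(UU m r) → ℂ)
    (hdet : (Matrix.of fun l l' : ↥(UU m r) => a l.1 l').det ≠ 0)
    (q : ↥((UU m r).finsuppAntidiag n) → ℂ) :
    ∃ (a' : ↥(UU m r)ᶜ → ↥(UU m r) → ℂ) (q' : ↥((UU m r).finsuppAntidiag n) → ℂ),
      Gform r n a q = Gform r n (nrm a') q' := by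
  classical
  set A : Matrix ↥(UU m r) ↥(UU m r) ℂ := Matrix.of fun l l' => a l.1 l' with hA
  set a'' : Fin m → ↥(UU m r) → ℂ := fun i l => ∑ l', a i l' * A⁻¹ l' l with ha''
  have hnrm : a'' = nrm (fun i l => a'' i.1 l) := by
    funext i l
    unfold nrm
    split_ifs with h h2
    · rfl
    · have hi : i ∈ UU m r := by simpa using h
      have h3 := congrFun (congrFun (Matrix.mul_nonsing_inv A (Ne.isUnit hdet)) ⟨i, hi⟩) l
      rw [Matrix.mul_apply, Matrix.one_apply, if_pos (Subtype.ext h2)] at h3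
      exact h3
    · have hi : i ∈ UU m r := by simpa using h
      have h3 := congrFun (congrFun (Matrix.mul_nonsing_inv A (Ne.isUnit hdet)) ⟨i, hi⟩) l
      rw [Matrix.mul_apply, Matrix.one_apply, if_neg (fun h4 => h2 (by rw [← h4]))] at h3
      exact h3
  have hmem : Gform r n a q ∈ (Submodule.span ℂ (Set.range (lfs a))) ^ n := by
    unfold Gform
    refine Submodule.sum_mem _ fun ν _ => ?_
    rw [← smul_eq_C_mul]
    apply Submodule.smul_mem
    have hprod : ∀ S : Finset ↥(UU m r), ∏ l ∈ S, lfs a l ^ (ν.1 l.1) ∈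
        (Submodule.span ℂ (Set.range (lfs a))) ^ (∑ l ∈ S, ν.1 l.1) := by
      intro S
      induction S using Finset.induction_on with
      | empty =>
        rw [Finset.prod_empty, Finset.sum_empty, pow_zero]
        exact Submodule.one_le.mp le_rfl
      | insert i S hi ih =>
        rw [Finset.prod_insert hi, Finset.sum_insert hi, pow_add]
        refine Submodule.mul_mem_mul ?_ ih
        exact Submodule.pow_mem_pow _ (Submodule.subset_span (Set.mem_range_self i)) _
    have h1 := hprod Finset.univ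
    have h2 : ∑ l : ↥(UU m r), ν.1 l.1 = n := by
      have h3 := ν.2
      rw [Finset.mem_finsuppAntidiag] at h3
      exact (Finset.sum_coe_sort (UU m r) (fun l => ν.1 l)).trans h3.1
    rw [h2] at h1
    exact h1
  have hspan : Submodule.span ℂ (Set.range (lfs a)) ≤ Submodule.span ℂ (Set.range (lfs a'')) := by
    rw [Submodule.span_le]
    rintro _ ⟨l, rfl⟩
    have h1 : lfs a l = ∑ l', A l' l • lfs a'' l' := by
      unfold lfs
      simp only [Finset.smul_sum, smul_eq_C_mul, ← mul_assoc, ← C_mul]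
      rw [Finset.sum_comm]
      refine Finset.sum_congr rfl fun i _ => ?_
      rw [← Finset.sum_mul, ← map_sum]
      congr 2
      simp only [ha'', Finset.mul_sum]
      rw [Finset.sum_comm]
      have h2 : ∀ l'' : ↥(UU m r), ∑ l' : ↥(UU m r), A l' l * (a i l'' * A⁻¹ l'' l') =
          a i l'' * (A⁻¹ * A) l'' l := by
        intro l''
        rw [Matrix.mul_apply, Finset.mul_sum]
        refine Finset.sum_congr rfl fun l' _ => ?_
        ring
      rw [Finset.sum_congr rfl fun l'' _ => h2 l'', Matrix.nonsing_inv_mul _ (Ne.isUnit hdet),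
        Finset.sum_eq_single l]
      · rw [Matrix.one_apply_eq, mul_one]
      · intro l'' _ hl''
        rw [Matrix.one_apply_ne hl'', mul_zero]
      · simp
    rw [h1]
    exact Submodule.sum_mem _ fun l' _ => Submodule.smul_mem _ _ (Submodule.subset_span ⟨l', rfl⟩)
  obtain ⟨q', hq'⟩ := exists_Gform_of_span a'' hspan hmem
  exact ⟨fun i l => a'' i.1 l, q', by rw [← hnrm]; exact hq'⟩

/-- From normalised linear forms to all linear forms. -/
theorem vanish_all {n r k : ℕ} (P : MvPolynomial ↥(mons (Fin m) n) ℂ)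
    (van1 : ∀ (a : Fin k → ↥(UU m r)ᶜ → ↥(UU m r) → ℂ)
      (q : Fin k → ↥((UU m r).finsuppAntidiag n) → ℂ),
      eval (fun μ : ↥(mons (Fin m) n) => coeff μ.1 (∑ j, Gform r n (nrm (a j)) (q j))) P = 0)
    (a : Fin k → Fin m → ↥(UU m r) → ℂ)
    (q : Fin k → ↥((UU m r).finsuppAntidiag n) → ℂ) :
    eval (fun μ : ↥(mons (Fin m) n) => coeff μ.1 (∑ j, Gform r n (a j) (q j))) P = 0 := by
  classical
  set F : MvPolynomial (Fin k × Fin m × ↥(UU m r)) ℂ :=
    aeval (fun μ : ↥(mons (Fin m) n) => coeff μ.1 (∑ j, Gform r n (fun i l => X (j, i, l))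
      (fun ν => C (q j ν)))) P with hF
  set H : MvPolynomial (Fin k × Fin m × ↥(UU m r)) ℂ :=
    ∏ j, (Matrix.of fun l l' : ↥(UU m r) => X (j, l.1, l')).det with hH
  have hFe : ∀ x : Fin k × Fin m × ↥(UU m r) → ℂ, eval x F =
      eval (fun μ : ↥(mons (Fin m) n) => coeff μ.1
        (∑ j, Gform r n (fun i l => x (j, i, l)) (q j))) P := by
    intro x
    have h6 : map (eval x) (∑ j, Gform r n (fun i l =>
        (X (j, i, l) : MvPolynomial (Fin k × Fin m × ↥(UU m r)) ℂ)) (fun ν => C (q j ν))) =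
        ∑ j, Gform r n (fun i l => x (j, i, l)) (q j) := by
      rw [map_sum]
      refine Finset.sum_congr rfl fun j _ => ?_
      rw [Gform_map]
      simp only [eval_X, eval_C]
    have h7 : (fun μ : ↥(mons (Fin m) n) => coeff μ.1
        (∑ j, Gform r n (fun i l => x (j, i, l)) (q j))) =
        fun μ : ↥(mons (Fin m) n) => eval x (coeff μ.1 (∑ j, Gform r n (fun i l =>
        (X (j, i, l) : MvPolynomial (Fin k × Fin m × ↥(UU m r)) ℂ)) (fun ν => C (q j ν)))) := by
      funext μ
      rw [← h6, coeff_map]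
    rw [hF, eval_aeval, h7]
  have hHe : ∀ x : Fin k × Fin m × ↥(UU m r) → ℂ, eval x H =
      ∏ j, (Matrix.of fun l l' : ↥(UU m r) => x (j, l.1, l')).det := by
    intro x
    rw [hH, map_prod]
    refine Finset.prod_congr rfl fun j _ => ?_
    rw [RingHom.map_det]
    have h5 : (eval x).mapMatrix (Matrix.of fun l l' : ↥(UU m r) =>
        (X (j, l.1, l') : MvPolynomial (Fin k × Fin m × ↥(UU m r)) ℂ)) =
        Matrix.of fun l l' : ↥(UU m r) => x (j, l.1, l') := by
      ext l l'
      rw [RingHom.mapMatrix_apply, Matrix.map_apply, Matrix.of_apply, Matrix.of_apply, eval_X]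
    rw [h5]
  have hH0 : H ≠ 0 := by
    intro h0
    have h1 := hHe fun p => if p.2.1 = p.2.2.1 then 1 else 0
    rw [h0, map_zero] at h1
    have h2 : ∀ j : Fin k, (Matrix.of fun l l' : ↥(UU m r) =>
        if l.1 = l'.1 then (1 : ℂ) else 0).det = 1 := by
      intro j
      have h3 : (Matrix.of fun l l' : ↥(UU m r) => if l.1 = l'.1 then (1 : ℂ) else 0) = 1 := by
        ext l l'
        rw [Matrix.of_apply, Matrix.one_apply]
        simp only [Subtype.ext_iff]
      rw [h3, Matrix.det_one]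
    rw [Finset.prod_congr rfl fun j _ => h2 j, Finset.prod_const_one] at h1
    exact zero_ne_one h1
  have hprod : F * H = 0 := by
    apply MvPolynomial.funext
    intro x
    rw [map_mul, map_zero, hFe, hHe]
    by_cases hx : ∏ j, (Matrix.of fun l l' : ↥(UU m r) => x (j, l.1, l')).det = 0
    · rw [hx, mul_zero]
    · have hx := Finset.prod_ne_zero_iff.mp hx
      have h1 := fun j : Fin k => exists_nrm (n := n) (fun i l => x (j, i, l))
        (hx j (Finset.mem_univ _)) (q j)
      choose a' q' h2 using h1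
      rw [Finset.sum_congr rfl fun j _ => h2 j, van1, zero_mul]
  have hF0 : F = 0 := (mul_eq_zero.mp hprod).resolve_right hH0
  have h3 := hFe (fun p => a p.1 p.2.1 p.2.2)
  rw [hF0, map_zero] at h3
  exact h3.symm

/-- Too few summands do not suffice generically. -/
theorem not_containsOpen_of_small {n r k : ℕ} (hr : r ≤ m)
    (hk : k * ((r + n - 1).choose n + r * (m - r)) < (m + n - 1).choose n) :
    ¬ ContainsOpen (Fin m) n {T | RankLE (Fin m) n r k T} := by
  classical
  set B : Type := Fin k × ((↥(UU m r)ᶜ × ↥(UU m r)) ⊕ ↥((UU m r).finsuppAntidiag n)) with hB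
  have hBcard : Fintype.card B = k * ((m - r) * r + (r + n - 1).choose n) := by
    change Fintype.card (Fin k × ((↥(UU m r)ᶜ × ↥(UU m r)) ⊕
      ↥((UU m r).finsuppAntidiag n))) = _
    rw [Fintype.card_prod, Fintype.card_sum, Fintype.card_prod, Fintype.card_fin,
      Fintype.card_coe, Fintype.card_coe, Fintype.card_coe,
      Finset.card_finsuppAntidiag_nat_eq_choose, Finset.card_compl, Fintype.card_fin, card_UU hr]
  have hcount : Fintype.card B < Fintype.card ↥(mons (Fin m) n) := by
    rw [hBcard, Fintype.card_coe]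
    unfold mons
    rw [Finset.card_finsuppAntidiag_nat_eq_choose, Finset.card_univ, Fintype.card_fin]
    refine lt_of_eq_of_lt ?_ hk
    ring
  set Tg : MvPolynomial (Fin m) (MvPolynomial B ℂ) :=
    ∑ j : Fin k, Gform r n (nrm fun i l => X (j, Sum.inl (i, l)))
      (fun ν => X (j, Sum.inr ν)) with hTg
  obtain ⟨P, hP0, hP⟩ := exists_relation hcount (fun μ : ↥(mons (Fin m) n) => coeff μ.1 Tg)
  -- vanishing for normalised linear forms
  have van1 : ∀ (a : Fin k → ↥(UU m r)ᶜ → ↥(UU m r) → ℂ)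
      (q : Fin k → ↥((UU m r).finsuppAntidiag n) → ℂ),
      eval (fun μ : ↥(mons (Fin m) n) => coeff μ.1 (∑ j, Gform r n (nrm (a j)) (q j))) P = 0 := by
    intro a q
    set y : B → ℂ := fun x => Sum.elim (fun p : ↥(UU m r)ᶜ × ↥(UU m r) => a x.1 p.1 p.2)
      (fun ν => q x.1 ν) x.2 with hy
    have h1 : map (eval y) Tg = ∑ j, Gform r n (nrm (a j)) (q j) := by
      rw [hTg, map_sum]
      refine Finset.sum_congr rfl fun j _ => ?_
      rw [Gform_map]
      congr 1
      · funext i l
        unfold nrm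
        split_ifs with h h2
        · rw [eval_X]
          rfl
        · rw [map_one]
        · rw [map_zero]
      · funext ν
        rw [eval_X]
        rfl
    have h2 : (fun μ : ↥(mons (Fin m) n) => coeff μ.1 (∑ j, Gform r n (nrm (a j)) (q j))) =
        fun μ : ↥(mons (Fin m) n) => eval y (coeff μ.1 Tg) := by
      funext μ
      rw [← h1, coeff_map]
    rw [h2, ← eval_aeval, hP, map_zero]
  have van2 := vanish_all P van1
  have van : ∀ T : MvPolynomial (Fin m) ℂ, RankLE (Fin m) n r k T →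
      eval (fun μ : ↥(mons (Fin m) n) => coeff μ.1 T) P = 0 := by
    rintro T ⟨t, ht, rfl⟩
    have := fun j => exists_Gform hr (ht j)
    choose a q haq using this
    rw [Finset.sum_congr rfl fun j _ => haq j]
    exact van2 a q
  rintro ⟨P', ⟨T₀, hT₀, hP'T₀⟩, hP'⟩
  have hprod : restr n P' * P = 0 := by
    apply MvPolynomial.funext
    intro y
    rw [map_mul, map_zero, eval_restr]
    by_cases h : eval (fun μ => coeff μ (formOf n y)) P' = 0
    · rw [h, zero_mul]
    · have h1 := van _ (hP' _ (formOf_isHomogeneous n y) h)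
      have h2 : (fun μ : ↥(mons (Fin m) n) => coeff μ.1 (formOf n y)) = y := by
        funext μ
        rw [coeff_formOf, dif_pos μ.2]
      rw [h2] at h1
      rw [h1, mul_zero]
  have h0 : restr n P' = 0 := (mul_eq_zero.mp hprod).resolve_right hP0
  apply hP'T₀
  have h1 := eval_restr n P' (fun μ : ↥(mons (Fin m) n) => coeff μ.1 T₀)
  rw [h0, map_zero, formOf_coeff hT₀] at h1
  exact h1.symm

end Pool.Agent.H95.GA
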