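import Pool.Agent.H95.GA.Stab

/-!
General position: points at which given sets of monomials are independent, and the number of
monomials of a given block type.
-/

namespace Pool.Agent.H95.GA

open MvPolynomial Pool.Agent.H42.GR

variable {m : ℕ}

theorem degree_mapDomain {b : ℕ} (f : Fin m → Fin b) (μ : Fin m →₀ ℕ) :
    (μ.mapDomain f).degree = μ.degree := by
  change (μ.mapDomain f).sum (fun _ k => k) = μ.sum fun _ k => k
  exact Finsupp.sum_mapDomain_index (fun _ => rfl) (fun _ _ _ => rfl)

/-- The number of monomials of degree `n` with a given block type is at most `q ^ n`. -/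
theorem card_type_le {b q : ℕ} (f : Fin m → Fin b)
    (hf : ∀ i, (Finset.univ.filter fun v => f v = i).card ≤ q) (n : ℕ) (β : Fin b →₀ ℕ) :
    ((mons (Fin m) n).filter fun μ => μ.mapDomain f = β).card ≤ q ^ n := by
  classical
  induction n generalizing β with
  | zero =>
    rw [pow_zero]
    have h1 : (mons (Fin m) 0).card ≤ 1 := by
      rw [Finset.card_le_one]
      intro a ha c hc
      rw [mem_mons, Finsupp.degree_eq_zero_iff] at ha hc
      rw [ha, hc]
    exact (Finset.card_filter_le _ _).trans h1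
  | succ n ih =>
    by_cases hβ : β = 0
    · have h1 : ((mons (Fin m) (n + 1)).filter fun μ => μ.mapDomain f = β) = ∅ := by
        rw [Finset.filter_eq_empty_iff]
        intro μ hμ h2
        rw [mem_mons] at hμ
        have h3 : (μ.mapDomain f).degree = μ.degree := degree_mapDomain f μ
        rw [h2, hβ, map_zero, hμ] at h3
        omega
      rw [h1, Finset.card_empty]
      exact Nat.zero_le _
    · obtain ⟨i, hi⟩ := Finsupp.ne_iff.mp hβ
      rw [Finsupp.zero_apply] at hi
      have hex : ∀ μ : Fin m →₀ ℕ, μ.mapDomain f = β → ∃ v, f v = i ∧ μ v ≠ 0 := by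
        intro μ hμ
        have h1 : i ∈ (μ.mapDomain f).support := by
          rw [hμ]
          exact Finsupp.mem_support_iff.mpr hi
        have h2 := Finsupp.mapDomain_support h1
        rw [Finset.mem_image] at h2
        obtain ⟨v, hv, hvi⟩ := h2
        exact ⟨v, hvi, Finsupp.mem_support_iff.mp hv⟩
      by_cases hemp : ((mons (Fin m) (n + 1)).filter fun μ => μ.mapDomain f = β) = ∅
      · rw [hemp, Finset.card_empty]
        exact Nat.zero_le _
      obtain ⟨μ₀, hμ₀⟩ := Finset.nonempty_iff_ne_empty.mpr hemp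
      rw [Finset.mem_filter] at hμ₀
      obtain ⟨v₀, _, _⟩ := hex μ₀ hμ₀.2
      haveI : Nonempty (Fin m) := ⟨v₀⟩
      choose! v hv1 hv2 using hex
      have hle : ∀ μ : Fin m →₀ ℕ, μ.mapDomain f = β →
          μ - Finsupp.single (v μ) 1 + Finsupp.single (v μ) 1 = μ := by
        intro μ hμ
        apply tsub_add_cancel_of_le
        rw [Finsupp.single_le_iff]
        have := hv2 μ hμ
        omega
      have h1 : ((mons (Fin m) (n + 1)).filter fun μ => μ.mapDomain f = β).card ≤
          ((Finset.univ.filter fun v => f v = i) ×ˢ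
            ((mons (Fin m) n).filter fun μ => μ.mapDomain f = β - Finsupp.single i 1)).card := by
        refine Finset.card_le_card_of_injOn (fun μ => (v μ, μ - Finsupp.single (v μ) 1)) ?_ ?_
        · intro μ hμ
          rw [Finset.mem_coe, Finset.mem_filter] at hμ
          rw [Finset.mem_coe, Finset.mem_product, Finset.mem_filter, Finset.mem_filter]
          have h2 := hle μ hμ.2
          refine ⟨⟨Finset.mem_univ _, hv1 μ hμ.2⟩, ?_, ?_⟩
          · rw [mem_mons]
            have h3 := mem_mons.mp hμ.1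
            rw [← h2, map_add, Finsupp.degree_single] at h3
            simp only
            omega
          · have h3 := hμ.2
            rw [← h2, Finsupp.mapDomain_add, Finsupp.mapDomain_single, hv1 μ hμ.2] at h3
            simp only
            rw [← h3, add_tsub_cancel_right]
        · intro μ hμ μ' hμ' h
          rw [Finset.mem_coe, Finset.mem_filter] at hμ hμ'
          rw [Prod.mk.injEq] at h
          rw [← hle μ hμ.2, ← hle μ' hμ'.2, h.2, h.1]
      refine h1.trans ?_
      rw [Finset.card_product, pow_succ, mul_comm]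
      exact Nat.mul_le_mul (ih _) (hf i)

/-- Points in general position. -/
theorem exists_points {n s : ℕ} {κ : Type} (B : Finset κ) (M : κ → Finset (Fin m →₀ ℕ))
    (T : κ → Finset (Fin s)) (hM : ∀ k ∈ B, ∀ μ ∈ M k, μ.degree = n)
    (hc : ∀ k ∈ B, (M k).card ≤ (T k).card) :
    ∃ y : Fin s → Fin m → ℂ, ∀ k ∈ B, ∀ a : (Fin m →₀ ℕ) → ℂ,
      (∀ t ∈ T k, ∑ μ ∈ M k, a μ * ∏ v, y t v ^ μ v = 0) → ∀ μ ∈ M k, a μ = 0 := by
  classical
  -- the determinant for one index
  have hdet : ∀ k ∈ B, ∃ D : MvPolynomial (Fin s × Fin m) ℂ, D ≠ 0 ∧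
      ∀ y : Fin s × Fin m → ℂ, eval y D ≠ 0 → ∀ a : (Fin m →₀ ℕ) → ℂ,
      (∀ t ∈ T k, ∑ μ ∈ M k, a μ * ∏ v, y (t, v) ^ μ v = 0) → ∀ μ ∈ M k, a μ = 0 := by
    intro k hk
    have h1 : Fintype.card ↥(M k) ≤ Fintype.card ↥(T k) := by
      rw [Fintype.card_coe, Fintype.card_coe]
      exact hc k hk
    obtain ⟨e⟩ := Function.Embedding.nonempty_of_card_le h1
    set A : Matrix ↥(M k) ↥(M k) (MvPolynomial (Fin s × Fin m) ℂ) :=
      Matrix.of fun μ μ' => ∏ v, X ((e μ').1, v) ^ μ.1 v with hA
    have hAe : ∀ y : Fin s × Fin m → ℂ, eval y A.det =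
        (Matrix.of fun μ μ' : ↥(M k) => ∏ v, y ((e μ').1, v) ^ μ.1 v).det := by
      intro y
      rw [RingHom.map_det]
      congr 1
      ext μ μ'
      rw [RingHom.mapMatrix_apply, Matrix.map_apply, hA, Matrix.of_apply, Matrix.of_apply,
        map_prod]
      refine Finset.prod_congr rfl fun v _ => ?_
      rw [map_pow, eval_X]
    refine ⟨A.det, ?_, ?_⟩
    · -- a point where the determinant does not vanish
      intro h0
      set f := Fintype.equivFin ↥(M k) with hf
      set idx : Fin s → ℕ := fun t => if h : ∃ μ, (e μ).1 = t then (f h.choose : ℕ) else 0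
        with hidx
      have hidxe : ∀ μ, idx (e μ).1 = f μ := by
        intro μ
        have h : ∃ μ', (e μ').1 = (e μ).1 := ⟨μ, rfl⟩
        simp only [hidx]
        rw [dif_pos h]
        congr 2
        exact e.injective (Subtype.ext h.choose_spec)
      have h2 := hAe fun p => ((2 : ℂ) ^ ((n + 1) ^ (p.2 : ℕ))) ^ idx p.1
      rw [h0, map_zero] at h2
      have h3 : (Matrix.of fun μ μ' : ↥(M k) =>
          ∏ v : Fin m, (((2 : ℂ) ^ ((n + 1) ^ (v : ℕ))) ^ idx (e μ').1) ^ μ.1 v) =
          (Matrix.vandermonde fun i : Fin (Fintype.card ↥(M k)) =>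
            (2 : ℂ) ^ wt n (f.symm i).1).submatrix f f := by
        ext μ μ'
        rw [Matrix.of_apply, Matrix.submatrix_apply, Matrix.vandermonde_apply, hidxe,
          Equiv.symm_apply_apply]
        unfold wt
        rw [← Finset.prod_pow_eq_pow_sum, ← Finset.prod_pow]
        refine Finset.prod_congr rfl fun v _ => ?_
        rw [← pow_mul, ← pow_mul, ← pow_mul]
        congr 1
        ring
      rw [h3, Matrix.det_submatrix_equiv_self] at h2
      have h4 := h2.symm
      rw [Matrix.det_vandermonde_eq_zero_iff] at h4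
      obtain ⟨i, j, hij, hne⟩ := h4
      apply hne
      have h5 : wt n (f.symm i).1 = wt n (f.symm j).1 := by
        have h6 : ((2 : ℕ) : ℂ) ^ wt n (f.symm i).1 = ((2 : ℕ) : ℂ) ^ wt n (f.symm j).1 := by
          exact_mod_cast hij
        have h7 : (2 : ℕ) ^ wt n (f.symm i).1 = 2 ^ wt n (f.symm j).1 := by exact_mod_cast h6
        exact Nat.pow_right_injective (le_refl 2) h7
      have h8 := wt_inj (hM k hk _ (f.symm i).2) (hM k hk _ (f.symm j).2) h5
      exact f.symm.injective (Subtype.ext h8)
    · intro y hy a ha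
      rw [hAe] at hy
      have h2 : Matrix.vecMul (fun μ : ↥(M k) => a μ.1)
          (Matrix.of fun μ μ' : ↥(M k) => ∏ v, y ((e μ').1, v) ^ μ.1 v) = 0 := by
        funext μ'
        rw [Matrix.vecMul, dotProduct, Pi.zero_apply]
        have h3 := ha (e μ').1 (e μ').2
        rw [← Finset.sum_coe_sort] at h3
        exact h3
      have h4 := Matrix.eq_zero_of_vecMul_eq_zero hy h2
      intro μ hμ
      exact congrFun h4 ⟨μ, hμ⟩
  choose! D hD0 hD using hdet
  have hprod : ∏ k ∈ B, D k ≠ 0 := Finset.prod_ne_zero_iff.mpr hD0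
  have hex : ∃ y : Fin s × Fin m → ℂ, eval y (∏ k ∈ B, D k) ≠ 0 := by
    by_contra hcon
    push Not at hcon
    apply hprod
    apply MvPolynomial.funext
    intro y
    rw [hcon y, map_zero]
  obtain ⟨y, hy⟩ := hex
  rw [map_prod, Finset.prod_ne_zero_iff] at hy
  exact ⟨fun t v => y (t, v), fun k hk a ha => hD k hk y (hy k hk) a ha⟩

end Pool.Agent.H95.GA
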