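import Pool.Agent.H42.GR.Lower3

/-!
Generic initial spaces: for a space `L` of forms of degree `n` there are a linear substitution `G`
and a strongly stable set of `dim L` monomials whose coefficients are coordinates on the
transformed space.
-/

namespace Pool.Agent.H95.GA

open MvPolynomial Pool.Agent.H42.GR

variable {m : ℕ}

/-- The weight of an exponent vector. -/
def wt (n : ℕ) (μ : Fin m →₀ ℕ) : ℕ := ∑ i, μ i * (n + 1) ^ (i : ℕ)

theorem wt_add (n : ℕ) (μ ν : Fin m →₀ ℕ) : wt n (μ + ν) = wt n μ + wt n ν := by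
  unfold wt
  rw [← Finset.sum_add_distrib]
  refine Finset.sum_congr rfl fun i _ => ?_
  rw [Finsupp.add_apply, add_mul]

theorem wt_single (n : ℕ) (i : Fin m) : wt n (Finsupp.single i 1) = (n + 1) ^ (i : ℕ) := by
  unfold wt
  rw [Finset.sum_eq_single i]
  · rw [Finsupp.single_eq_same, one_mul]
  · intro k _ hk
    rw [Finsupp.single_eq_of_ne hk, zero_mul]
  · simp

theorem wt_inj {n : ℕ} {μ ν : Fin m →₀ ℕ} (hμ : μ.degree = n) (hν : ν.degree = n)
    (h : wt n μ = wt n ν) : μ = ν := by
  have hle : ∀ κ : Fin m →₀ ℕ, κ.degree = n → ∀ i, κ i < n + 1 := by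
    intro κ hκ i
    rw [Finsupp.degree_eq_sum] at hκ
    have := Finset.single_le_sum (f := fun i => κ i) (fun _ _ => Nat.zero_le _)
      (Finset.mem_univ i)
    omega
  have h1 : finFunctionFinEquiv (fun i => (⟨μ i, hle μ hμ i⟩ : Fin (n + 1))) =
      finFunctionFinEquiv (fun i => (⟨ν i, hle ν hν i⟩ : Fin (n + 1))) := by
    apply Fin.ext
    rw [finFunctionFinEquiv_apply, finFunctionFinEquiv_apply]
    exact h
  have h2 := finFunctionFinEquiv.injective h1
  ext i
  have h3 := congrFun h2 i
  exact Fin.ext_iff.mp h3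

/-- The one-parameter family of substitutions `X_i ↦ X_i + T X_j`. -/
noncomputable def Phi (i j : Fin m) :
    MvPolynomial (Fin m) ℂ →ₐ[ℂ] Polynomial (MvPolynomial (Fin m) ℂ) :=
  aeval fun k => Polynomial.C (X k) + if k = i then Polynomial.X * Polynomial.C (X j) else 0

theorem Phi_C (i j : Fin m) (a : ℂ) : Phi i j (C a) = Polynomial.C (C a) := by
  unfold Phi
  rw [aeval_C]
  rfl

theorem Phi_X (i j k : Fin m) : Phi i j (X k) =
    Polynomial.C (X k) + if k = i then Polynomial.X * Polynomial.C (X j) else 0 := by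
  unfold Phi
  rw [aeval_X]

theorem Phi_coeff_zero (i j : Fin m) (F : MvPolynomial (Fin m) ℂ) :
    (Phi i j F).coeff 0 = F := by
  induction F using MvPolynomial.induction_on with
  | C a => rw [Phi_C, Polynomial.coeff_C_zero]
  | add P Q hP hQ => rw [map_add, Polynomial.coeff_add, hP, hQ]
  | mul_X P k hP =>
    rw [map_mul, Polynomial.mul_coeff_zero, hP, Phi_X]
    split_ifs <;> simp

theorem Phi_coeff_one (i j : Fin m) (F : MvPolynomial (Fin m) ℂ) :
    (Phi i j F).coeff 1 = X j * pderiv i F := by
  induction F using MvPolynomial.induction_on with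
  | C a => rw [Phi_C, Polynomial.coeff_C, pderiv_C]; simp
  | add P Q hP hQ => rw [map_add, Polynomial.coeff_add, hP, hQ, map_add, mul_add]
  | mul_X P k hP =>
    rw [map_mul, Polynomial.mul_coeff_one, hP, Phi_coeff_zero, Phi_X, pderiv_mul]
    by_cases h : k = i
    · subst h
      rw [if_pos rfl, pderiv_X_self]
      simp
      ring
    · rw [if_neg h, pderiv_X_of_ne (fun h' => h h')]
      simp
      ring

/-- The substitution matrix. -/
noncomputable def U (i j : Fin m) (t : ℂ) : Matrix (Fin m) (Fin m) ℂ :=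
  Matrix.of fun k l => (if k = l then 1 else 0) + if k = i ∧ l = j then t else 0

theorem Phi_eval (i j : Fin m) (t : ℂ) (F : MvPolynomial (Fin m) ℂ) :
    (Phi i j F).eval (C t) = sub (U i j t) F := by
  induction F using MvPolynomial.induction_on with
  | C a => rw [Phi_C, Polynomial.eval_C, algHom_C, algebraMap_eq]
  | add P Q hP hQ => rw [map_add, Polynomial.eval_add, hP, hQ, map_add]
  | mul_X P k hP =>
    rw [map_mul, Polynomial.eval_mul, hP, map_mul, Phi_X]
    congr 1
    unfold sub
    rw [aeval_X]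
    have h1 : ∀ l, C (U i j t k l) * (X l : MvPolynomial (Fin m) ℂ) =
        (if l = k then X l else 0) + if l = j then (if k = i then C t * X l else 0) else 0 := by
      intro l
      unfold U
      rw [Matrix.of_apply, C_add, add_mul]
      congr 1
      · by_cases h : k = l
        · rw [if_pos h, if_pos h.symm, C_1, one_mul]
        · rw [if_neg h, if_neg (fun h' => h h'.symm), C_0, zero_mul]
      · by_cases h : k = i
        · by_cases h2 : l = j
          · rw [if_pos ⟨h, h2⟩, if_pos h2, if_pos h]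
          · rw [if_neg (fun h' => h2 h'.2), if_neg h2, C_0, zero_mul]
        · rw [if_neg (fun h' => h h'.1), if_neg h, C_0, zero_mul]
          split_ifs <;> rfl
    rw [Finset.sum_congr rfl fun l _ => h1 l, Finset.sum_add_distrib, Finset.sum_ite_eq',
      if_pos (Finset.mem_univ _), Finset.sum_ite_eq', if_pos (Finset.mem_univ _)]
    split_ifs
    · rw [Polynomial.eval_add, Polynomial.eval_C, Polynomial.eval_mul, Polynomial.eval_X,
        Polynomial.eval_C]
    · rw [add_zero, Polynomial.eval_C, add_zero]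

/-- The coefficient of a monomial along the family, as a polynomial in the parameter. -/
noncomputable def cf (ν : Fin m →₀ ℕ) (P : Polynomial (MvPolynomial (Fin m) ℂ)) : Polynomial ℂ :=
  ∑ k ∈ Finset.range (P.natDegree + 1), Polynomial.monomial k (coeff ν (P.coeff k))

theorem cf_coeff (ν : Fin m →₀ ℕ) (P : Polynomial (MvPolynomial (Fin m) ℂ)) (k : ℕ) :
    (cf ν P).coeff k = coeff ν (P.coeff k) := by
  unfold cf
  rw [Polynomial.finsetSum_coeff]
  by_cases hk : k ∈ Finset.range (P.natDegree + 1)
  · rw [Finset.sum_eq_single k]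
    · rw [Polynomial.coeff_monomial, if_pos rfl]
    · intro l _ hl
      rw [Polynomial.coeff_monomial, if_neg hl]
    · intro h
      exact absurd hk h
  · rw [Finset.sum_eq_zero]
    · rw [Finset.mem_range, not_lt] at hk
      rw [Polynomial.coeff_eq_zero_of_natDegree_lt (by omega), coeff_zero]
    · intro l hl
      rw [Polynomial.coeff_monomial, if_neg]
      rintro rfl
      exact hk hl

theorem cf_eval (ν : Fin m →₀ ℕ) (P : Polynomial (MvPolynomial (Fin m) ℂ)) (t : ℂ) :
    (cf ν P).eval t = coeff ν (P.eval (C t)) := by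
  unfold cf
  rw [Polynomial.eval_finsetSum, Polynomial.eval_eq_sum_range, coeff_sum]
  refine Finset.sum_congr rfl fun k _ => ?_
  rw [Polynomial.eval_monomial, ← C_pow, mul_comm (P.coeff k), coeff_C_mul, mul_comm]

/-- The key step. -/
theorem stable_core {n D : ℕ} (g : Fin D → MvPolynomial (Fin m) ℂ)
    (c : Fin D → (Fin m →₀ ℕ)) (hc : ∀ b, (c b).degree = n)
    (hdual : ∀ a b, coeff (c b) (g a) = if a = b then 1 else 0)
    (hmin : ∀ (H : Matrix (Fin m) (Fin m) ℂ) (c' : Fin D → (Fin m →₀ ℕ)),
      ∑ b, wt n (c' b) < ∑ b, wt n (c b) →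
      (Matrix.of fun a b => coeff (c' b) (sub H (g a))).det = 0)
    (a₀ : Fin D) (i j : Fin m) (hji : j < i) (hi : c a₀ i ≠ 0) :
    ∃ b, c b = c a₀ - Finsupp.single i 1 + Finsupp.single j 1 := by
  classical
  by_contra hno
  push Not at hno
  set κ : Fin m →₀ ℕ := c a₀ - Finsupp.single i 1 with hκ
  set μ' : Fin m →₀ ℕ := κ + Finsupp.single j 1 with hμ'
  have hκμ : κ + Finsupp.single i 1 = c a₀ := by
    apply tsub_add_cancel_of_le
    rw [Finsupp.single_le_iff]
    omega
  have hn : 1 ≤ n := by
    have h1 := hc a₀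
    rw [← hκμ, map_add, Finsupp.degree_single] at h1
    omega
  have hdeg' : μ'.degree = n := by
    have h1 := hc a₀
    rw [← hκμ, map_add, Finsupp.degree_single] at h1
    rw [hμ', map_add, Finsupp.degree_single]
    exact h1
  have hpow : (n + 1) ^ (j : ℕ) < (n + 1) ^ (i : ℕ) :=
    Nat.pow_lt_pow_right (by omega) hji
  have hw1 : wt n μ' = wt n κ + (n + 1) ^ (j : ℕ) := by rw [hμ', wt_add, wt_single]
  have hw2 : wt n (c a₀) = wt n κ + (n + 1) ^ (i : ℕ) := by rw [← hκμ, wt_add, wt_single]
  -- sums of weights after replacing one entry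
  have hsum : ∀ (a : Fin D) (ν : Fin m →₀ ℕ), wt n ν < wt n (c a) →
      ∑ b, wt n (Function.update c a ν b) < ∑ b, wt n (c b) := by
    intro a ν hν
    apply Finset.sum_lt_sum
    · intro b _
      by_cases hb : b = a
      · subst hb
        rw [Function.update_self]
        exact hν.le
      · rw [Function.update_of_ne hb]
    · exact ⟨a, Finset.mem_univ _, by rw [Function.update_self]; exact hν⟩
  -- the basis is reduced
  have hred : ∀ (a : Fin D) (ν : Fin m →₀ ℕ), wt n ν < wt n (c a) → coeff ν (g a) = 0 := by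
    intro a ν hν
    have h1 := hmin 1 (Function.update c a ν) (hsum a ν hν)
    have h2 : (Matrix.of fun a' b => coeff (Function.update c a ν b) (sub 1 (g a'))) =
        (1 : Matrix (Fin D) (Fin D) ℂ).updateCol a (fun a' => coeff ν (g a')) := by
      ext a' b
      rw [Matrix.of_apply, sub_one, Matrix.updateCol_apply]
      by_cases hb : b = a
      · subst hb
        rw [Function.update_self, if_pos rfl]
      · rw [Function.update_of_ne hb, if_neg hb, hdual, Matrix.one_apply]
    rw [h2, ← Matrix.cramer_apply, Matrix.cramer_one] at h1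
    exact h1
  set c' : Fin D → (Fin m →₀ ℕ) := Function.update c a₀ μ' with hc'
  have hc'0 : c' a₀ = μ' := by rw [hc', Function.update_self]
  have hc'1 : ∀ b, b ≠ a₀ → c' b = c b := fun b hb => by rw [hc', Function.update_of_ne hb]
  set E : Matrix (Fin D) (Fin D) (Polynomial ℂ) :=
    Matrix.of fun a b => cf (c' b) (Phi i j (g a)) with hE
  have hEdet : E.det = 0 := by
    apply Polynomial.funext
    intro t
    rw [Polynomial.eval_zero]
    have h1 : Polynomial.eval t E.det = (Polynomial.evalRingHom t) E.det := rfl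
    rw [h1, RingHom.map_det]
    have h2 : (Polynomial.evalRingHom t).mapMatrix E =
        Matrix.of fun a b => coeff (c' b) (sub (U i j t) (g a)) := by
      ext a b
      rw [RingHom.mapMatrix_apply, Matrix.map_apply, hE, Matrix.of_apply, Matrix.of_apply,
        Polynomial.coe_evalRingHom, cf_eval, Phi_eval]
    rw [h2]
    exact hmin _ _ (hsum a₀ μ' (by omega))
  have hrow0 : ∀ b, (E a₀ b).coeff 0 = 0 := by
    intro b
    rw [hE, Matrix.of_apply, cf_coeff, Phi_coeff_zero]
    by_cases hb : b = a₀
    · subst hb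
      rw [hc'0]
      exact hred _ _ (by omega)
    · rw [hc'1 b hb, hdual, if_neg (Ne.symm hb)]
  have hfac : E = E.updateRow a₀ ((Polynomial.X : Polynomial ℂ) • fun b => (E a₀ b).divX) := by
    ext1 a b
    rw [Matrix.updateRow_apply]
    split_ifs with ha
    · subst ha
      rw [Pi.smul_apply, smul_eq_mul, mul_comm]
      have := Polynomial.divX_mul_X_add (E a b)
      rw [hrow0 b, Polynomial.C_0, add_zero] at this
      exact this.symm
    · rfl
  set E' := E.updateRow a₀ (fun b => (E a₀ b).divX) with hE'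
  have hE'det : E'.det = 0 := by
    rw [hfac, Matrix.det_updateRow_smul] at hEdet
    exact (mul_eq_zero.mp hEdet).resolve_left Polynomial.X_ne_zero
  have hB := congrArg (Polynomial.evalRingHom (0 : ℂ)) hE'det
  rw [RingHom.map_det, map_zero] at hB
  obtain ⟨v, hv0, hv⟩ := Matrix.exists_mulVec_eq_zero_iff.mpr hB
  -- the rows
  have hrow : ∀ a, a ≠ a₀ → v a + coeff μ' (g a) * v a₀ = 0 := by
    intro a ha
    have h1 := congrFun hv a
    rw [Matrix.mulVec, dotProduct, Pi.zero_apply, ← Finset.add_sum_erase _ _ (Finset.mem_univ a₀)]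
      at h1
    have h2 : ∀ b, (Polynomial.evalRingHom (0 : ℂ)).mapMatrix E' a b = coeff (c' b) (g a) := by
      intro b
      rw [RingHom.mapMatrix_apply, Matrix.map_apply, hE', Matrix.updateRow_ne ha, hE,
        Matrix.of_apply, Polynomial.coe_evalRingHom, ← Polynomial.coeff_zero_eq_eval_zero,
        cf_coeff, Phi_coeff_zero]
    rw [h2, hc'0, Finset.sum_eq_single a] at h1
    · rw [h2, hc'1 a ha, hdual, if_pos rfl, one_mul, add_comm] at h1
      exact h1
    · intro b hb hba
      rw [h2, hc'1 b (Finset.ne_of_mem_erase hb), hdual, if_neg (Ne.symm hba), zero_mul]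
    · intro h
      exact absurd (Finset.mem_erase.mpr ⟨ha, Finset.mem_univ _⟩) h
  have hlast : ∑ b, coeff (c' b) (X j * pderiv i (g a₀)) * v b = 0 := by
    have h1 := congrFun hv a₀
    rw [Matrix.mulVec, dotProduct, Pi.zero_apply] at h1
    rw [← h1]
    refine Finset.sum_congr rfl fun b _ => ?_
    congr 1
    rw [RingHom.mapMatrix_apply, Matrix.map_apply, hE', Matrix.updateRow_self,
      Polynomial.coe_evalRingHom, ← Polynomial.coeff_zero_eq_eval_zero, Polynomial.coeff_divX,
      zero_add, hE, Matrix.of_apply, cf_coeff, Phi_coeff_one]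
  have hcross : ∀ b, b ≠ a₀ → coeff (c' b) (X j * pderiv i (g a₀)) * v b = 0 := by
    intro b hb
    by_contra hne
    have h1 := left_ne_zero_of_mul hne
    have h2 := right_ne_zero_of_mul hne
    have h3 : coeff μ' (g b) ≠ 0 := by
      intro h4
      have h5 := hrow b hb
      rw [h4, zero_mul, add_zero] at h5
      exact h2 h5
    have h6 : wt n (c b) ≤ wt n μ' := by
      by_contra hlt
      exact h3 (hred b μ' (by omega))
    have h7 : wt n (c b) ≠ wt n μ' := by
      intro h8
      exact hno b (wt_inj (hc b) hdeg' h8)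
    rw [hc'1 b hb, coeff_X_mul'] at h1
    split_ifs at h1 with h8
    · rw [coeff_pderiv] at h1
      have h9 := left_ne_zero_of_mul h1
      have h10 : c b - Finsupp.single j 1 + Finsupp.single j 1 = c b := by
        apply tsub_add_cancel_of_le
        rw [Finsupp.single_le_iff]
        rw [Finsupp.mem_support_iff] at h8
        omega
      have h11 : wt n (c b - Finsupp.single j 1) + (n + 1) ^ (j : ℕ) = wt n (c b) := by
        rw [← wt_single (m := m), ← wt_add, h10]
      have h12 : wt n (c a₀) ≤ wt n (c b - Finsupp.single j 1 + Finsupp.single i 1) := by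
        by_contra hlt
        exact h9 (hred a₀ _ (by omega))
      rw [wt_add, wt_single] at h12
      omega
    · exact h1 rfl
  rw [← Finset.add_sum_erase _ _ (Finset.mem_univ a₀), Finset.sum_eq_zero (fun b hb =>
    hcross b (Finset.ne_of_mem_erase hb)), add_zero, hc'0, hμ', add_comm κ, coeff_X_mul,
    coeff_pderiv, hκμ, hdual, if_pos rfl, one_mul] at hlast
  have hva : v a₀ = 0 := by
    rcases mul_eq_zero.mp hlast with h | h
    · exact absurd h (Nat.cast_add_one_ne_zero _)
    · exact h
  apply hv0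
  funext a
  rw [Pi.zero_apply]
  by_cases ha : a = a₀
  · rw [ha, hva]
  · have := hrow a ha
    rw [hva, mul_zero, add_zero] at this
    exact this

/-- Linearly independent forms have a nonvanishing coefficient minor. -/
theorem exists_minor {D : ℕ} (f : Fin D → MvPolynomial (Fin m) ℂ)
    (hli : LinearIndependent ℂ f) :
    ∃ c : Fin D → (Fin m →₀ ℕ), (Matrix.of fun a b => coeff (c b) (f a)).det ≠ 0 := by
  classical
  set v : (Fin m →₀ ℕ) → (Fin D → ℂ) := fun ν a => coeff ν (f a) with hv
  have htop : Submodule.span ℂ (Set.range v) = ⊤ := by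
    by_contra hne
    obtain ⟨φ, hφ0, hφ⟩ := Submodule.exists_le_ker_of_lt_top _ (lt_top_iff_ne_top.mpr hne)
    apply hφ0
    have h1 : ∑ a, φ (Pi.single a 1) • f a = 0 := by
      ext ν
      rw [coeff_sum, coeff_zero]
      have h2 : φ (v ν) = 0 := hφ (Submodule.subset_span ⟨ν, rfl⟩)
      have h3 : v ν = ∑ a, coeff ν (f a) • (Pi.single a 1 : Fin D → ℂ) := by
        funext a
        rw [Finset.sum_apply, Finset.sum_eq_single a]
        · simp [hv]
        · intro b _ hb
          rw [Pi.smul_apply, Pi.single_eq_of_ne (Ne.symm hb), smul_zero]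
        · simp
      rw [h3, map_sum] at h2
      rw [← h2]
      refine Finset.sum_congr rfl fun a _ => ?_
      rw [coeff_smul, map_smul, smul_eq_mul, smul_eq_mul, mul_comm]
    have h4 := Fintype.linearIndependent_iff.mp hli _ h1
    apply LinearMap.pi_ext'
    intro a
    apply LinearMap.ext_ring
    simpa using h4 a
  obtain ⟨κ, a, ha, hspan, hli'⟩ := exists_linearIndependent' ℂ v
  have B := Module.Basis.mk hli' (by rw [hspan, htop])
  have e : κ ≃ Fin D := B.indexEquiv (Pi.basisFun ℂ (Fin D))
  refine ⟨fun b => a (e.symm b), ?_⟩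
  have h5 : LinearIndependent ℂ (fun b : Fin D => v (a (e.symm b))) :=
    hli'.comp e.symm e.symm.injective
  have h6 : IsUnit (Matrix.of fun b c : Fin D => v (a (e.symm b)) c) :=
    Matrix.linearIndependent_rows_iff_isUnit.mp h5
  have h7 := (Matrix.isUnit_iff_isUnit_det _).mp h6
  rw [isUnit_iff_ne_zero] at h7
  rw [← Matrix.det_transpose]
  exact h7

/-- Existence of a strongly stable set of monomials. -/
theorem exists_stable {n D : ℕ} (f : Fin D → MvPolynomial (Fin m) ℂ)
    (hf : ∀ a, (f a).IsHomogeneous n) (hli : LinearIndependent ℂ f) :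
    ∃ (G : Matrix (Fin m) (Fin m) ℂ) (c : Fin D → (Fin m →₀ ℕ)), (∀ b, (c b).degree = n) ∧
      (Matrix.of fun a b => coeff (c b) (sub G (f a))).det ≠ 0 ∧
      ∀ (b : Fin D) (i j : Fin m), j < i → c b i ≠ 0 →
        ∃ b', c b' = c b - Finsupp.single i 1 + Finsupp.single j 1 := by
  classical
  have hex : ∃ k : ℕ, ∃ (G : Matrix (Fin m) (Fin m) ℂ) (c : Fin D → (Fin m →₀ ℕ)),
      (Matrix.of fun a b => coeff (c b) (sub G (f a))).det ≠ 0 ∧ ∑ b, wt n (c b) = k := by
    obtain ⟨c, hc⟩ := exists_minor f hli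
    refine ⟨_, 1, c, ?_, rfl⟩
    simp only [sub_one]
    exact hc
  obtain ⟨G, c, hdet, hk⟩ := Nat.find_spec hex
  have hmin : ∀ (H : Matrix (Fin m) (Fin m) ℂ) (c' : Fin D → (Fin m →₀ ℕ)),
      ∑ b, wt n (c' b) < ∑ b, wt n (c b) →
      (Matrix.of fun a b => coeff (c' b) (sub H (f a))).det = 0 := by
    intro H c' hlt
    by_contra hne
    rw [hk] at hlt
    exact Nat.find_min hex hlt ⟨H, c', hne, rfl⟩
  set A : Matrix (Fin D) (Fin D) ℂ := Matrix.of fun a b => coeff (c b) (sub G (f a)) with hA
  have hdeg : ∀ b, (c b).degree = n := by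
    intro b
    by_contra hne
    apply hdet
    apply Matrix.det_eq_zero_of_column_eq_zero b
    intro a
    rw [hA, Matrix.of_apply]
    by_contra h0
    apply hne
    have h1 := sub_isHomogeneous G (hf a) h0
    rw [Finsupp.degree_eq_weight_one]
    exact h1
  refine ⟨G, c, hdeg, hdet, ?_⟩
  set g : Fin D → MvPolynomial (Fin m) ℂ := fun a => ∑ a', (A⁻¹) a a' • sub G (f a') with hg
  have hAA : A⁻¹ * A = 1 := Matrix.nonsing_inv_mul _ (Ne.isUnit hdet)
  have key : ∀ (H : Matrix (Fin m) (Fin m) ℂ) (c' : Fin D → (Fin m →₀ ℕ)),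
      (Matrix.of fun a b => coeff (c' b) (sub H (g a))) =
        A⁻¹ * (Matrix.of fun a b => coeff (c' b) (sub (G * H) (f a))) := by
    intro H c'
    ext a b
    rw [Matrix.of_apply, Matrix.mul_apply, hg]
    simp only [map_sum, map_smul, coeff_sum, coeff_smul, smul_eq_mul,
      Pool.Agent.H42.GR.sub_sub, Matrix.of_apply]
  intro b i j hji hbi
  refine stable_core g c hdeg ?_ ?_ b i j hji hbi
  · intro a b
    have h1 := congrFun (congrFun (key 1 c) a) b
    rw [Matrix.mul_one, ← hA, hAA, Matrix.of_apply, sub_one, Matrix.one_apply] at h1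
    exact h1
  · intro H c' hlt
    rw [key, Matrix.det_mul, hmin _ _ hlt, mul_zero]

end Pool.Agent.H95.GA
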