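import Pool.Agent.H95.GA.Design
import Pool.Agent.H95.GA.Lower
import Pool.Agent.H95.GA.Asym

/-!
Exact values of the generic rank and uniform bounds.
-/

namespace Pool.Agent.H95.GA

open MvPolynomial Pool.Agent.H42.GR

/-- If `s` summands always suffice and `s - 1` do not suffice generically, the generic rank
is `s`. -/
theorem generic_of_bounds {n r m s : ℕ} (hr : r ≤ m)
    (hall : ∀ T ∈ homogeneousSubmodule (Fin m) ℂ n, RankLE (Fin m) n r s T)
    (hlow : (s - 1) * ((r + n - 1).choose n + r * (m - r)) < (m + n - 1).choose n) :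
    IsGenericRank (Fin m) n r s := by
  refine ⟨⟨1, ⟨0, Submodule.zero_mem _, ?_⟩, fun T hT _ => hall T hT⟩, ?_⟩
  · rw [map_one]
    exact one_ne_zero
  · intro k hk
    by_contra hlt
    rw [not_le] at hlt
    refine not_containsOpen_of_small hr ?_ hk
    refine lt_of_le_of_lt ?_ hlow
    exact Nat.mul_le_mul_right _ (by omega)

/-- The generic rank exists and satisfies the two bounds. -/
theorem exists_generic {n r m s : ℕ} (hr : r ≤ m)
    (hall : ∀ T ∈ homogeneousSubmodule (Fin m) ℂ n, RankLE (Fin m) n r s T) :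
    ∃ k, IsGenericRank (Fin m) n r k ∧ k ≤ s ∧
      (m + n - 1).choose n ≤ k * ((r + n - 1).choose n + r * (m - r)) := by
  classical
  have hopen : ContainsOpen (Fin m) n {T | RankLE (Fin m) n r s T} := by
    refine ⟨1, ⟨0, Submodule.zero_mem _, ?_⟩, fun T hT _ => hall T hT⟩
    rw [map_one]
    exact one_ne_zero
  have hex : ∃ k, ContainsOpen (Fin m) n {T | RankLE (Fin m) n r k T} := ⟨s, hopen⟩
  refine ⟨Nat.find hex, ⟨Nat.find_spec hex, fun k hk => Nat.find_min' hex hk⟩,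
    Nat.find_min' hex hopen, ?_⟩
  by_contra hlt
  exact not_containsOpen_of_small hr (not_le.mp hlt) (Nat.find_spec hex)

/-- The number of blocks. -/
theorem blocks_le {q m : ℕ} (hq : 1 ≤ q) : m ≤ q * ((m + q - 1) / q) := by
  have h1 := Nat.lt_mul_div_succ (m + q - 1) (show 0 < q by omega)
  have h2 : q * ((m + q - 1) / q + 1) = q * ((m + q - 1) / q) + q := by ring
  omega

/-- `r` is large enough for the construction, in terms of real numbers. -/
theorem blocks_bound {q m b z s r : ℕ} {x : ℝ} (hq : 1 ≤ q) (hs : 1 ≤ s) (hzs : z ≤ s)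
    (hb : b = (m + q - 1) / q) (hx : ((s : ℝ) - z) * ((m : ℝ) + q) ≤ q * s * x)
    (hxr : x + 1 ≤ r) : b - b * z / s ≤ r := by
  have hq' : (0 : ℝ) < (q : ℝ) := by exact_mod_cast hq
  have hs' : (0 : ℝ) < (s : ℝ) := by exact_mod_cast hs
  have hzs' : (z : ℝ) ≤ (s : ℝ) := by exact_mod_cast hzs
  have hb' : (q : ℝ) * b ≤ (m : ℝ) + q := by
    have h1 : q * b ≤ m + q := by
      have h2 := Nat.mul_div_le (m + q - 1) q
      rw [← hb] at h2
      omega
    exact_mod_cast h1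
  have h3 : ((b * z : ℕ) : ℝ) < s * (((b * z / s : ℕ) : ℝ) + 1) := by
    have h4 := Nat.lt_mul_div_succ (b * z) (show 0 < s by omega)
    exact_mod_cast h4
  rw [Nat.cast_mul] at h3
  have h5 : (b : ℝ) ≤ r + ((b * z / s : ℕ) : ℝ) := by
    by_contra hlt
    rw [not_le] at hlt
    have h6 : (s : ℝ) * (r + ((b * z / s : ℕ) : ℝ)) < s * b := mul_lt_mul_of_pos_left hlt hs'
    have h7 : ((s : ℝ) - z) * (q * b) ≤ q * s * x :=
      (mul_le_mul_of_nonneg_left hb' (by linarith)).trans hx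
    have h8 : ((s : ℝ) - z) * b ≤ s * x := by
      have h9 : (q : ℝ) * (((s : ℝ) - z) * b) ≤ q * (s * x) := by
        calc (q : ℝ) * (((s : ℝ) - z) * b) = ((s : ℝ) - z) * (q * b) := by ring
          _ ≤ q * s * x := h7
          _ = q * (s * x) := by ring
      exact le_of_mul_le_mul_left h9 hq'
    have h10 : (s : ℝ) * (x + 1) ≤ s * r := mul_le_mul_of_nonneg_left hxr hs'.le
    nlinarith
  have h11 : b ≤ r + b * z / s := by exact_mod_cast h5
  omega

/-- The comparison of dimensions. -/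
theorem dim_lt {n r m s Q : ℕ} {ε : ℝ} (hn : 3 ≤ n) (hs : 1 ≤ s)
    (hr1 : 1 ≤ r) (hrn : n ≤ r) (hm : m ≤ Q * r)
    (hlarge : ((s : ℝ) - 1) * (2 ^ n * n + n.factorial * Q) < ε * r)
    (hlow : ((s : ℝ) - 1 + ε) * (r : ℝ) ^ n ≤ (m : ℝ) ^ n) :
    (s - 1) * ((r + n - 1).choose n + r * (m - r)) < (m + n - 1).choose n := by
  have hr' : (0 : ℝ) < (r : ℝ) := by exact_mod_cast hr1
  have hr1' : (1 : ℝ) ≤ (r : ℝ) := by exact_mod_cast hr1
  have hf : (0 : ℝ) < ((n.factorial : ℕ) : ℝ) := by exact_mod_cast Nat.factorial_pos n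
  have hs' : (0 : ℝ) ≤ (s : ℝ) - 1 := by
    have : (1 : ℝ) ≤ s := by exact_mod_cast hs
    linarith
  have hm' : (m : ℝ) ≤ Q * r := by exact_mod_cast hm
  have h2 : (m : ℝ) ^ n ≤ (n.factorial : ℝ) * ((m + n - 1).choose n : ℝ) := by
    rw [fact_choose]
    exact_mod_cast pow_le_asc m n
  have h3 : (n.factorial : ℝ) * ((r + n - 1).choose n : ℝ) ≤ ((r : ℝ) + n) ^ n := by
    rw [fact_choose]
    exact_mod_cast asc_le_pow r n n le_rfl
  have hx : ((n : ℝ) / r) ≤ 1 := by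
    rw [div_le_one hr']
    exact_mod_cast hrn
  have h5 : ((r : ℝ) + n) ^ n ≤ (1 + 2 ^ n * (n / r)) * (r : ℝ) ^ n := by
    have h6 := one_add_pow_le ((n : ℝ) / r) (by positivity) hx n
    have h7 : (1 + (n : ℝ) / r) ^ n * (r : ℝ) ^ n = ((r : ℝ) + n) ^ n := by
      rw [← mul_pow]
      congr 1
      field_simp
    rw [← h7]
    apply mul_le_mul_of_nonneg_right _ (by positivity)
    have h8 : (0 : ℝ) ≤ (n : ℝ) / r := by positivity
    linarith
  have h9 : (r : ℝ) * ((m - r : ℕ) : ℝ) ≤ Q * ((r : ℝ) ^ n / r) := by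
    have h10 : ((m - r : ℕ) : ℝ) ≤ m := by exact_mod_cast Nat.sub_le m r
    have h11 : (r : ℝ) ^ n = (r : ℝ) ^ (n - 3) * (r * r * r) := by
      rw [← pow_three', ← pow_add]
      congr 1
      omega
    have h12 : (1 : ℝ) ≤ (r : ℝ) ^ (n - 3) := one_le_pow₀ hr1'
    have h13 : (r : ℝ) ^ n / r = (r : ℝ) ^ (n - 3) * (r * r) := by
      rw [h11]
      field_simp
    rw [h13]
    have hQ : (0 : ℝ) ≤ Q := Nat.cast_nonneg _
    calc (r : ℝ) * ((m - r : ℕ) : ℝ) ≤ r * (Q * r) :=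
          mul_le_mul_of_nonneg_left (h10.trans hm') hr'.le
      _ = Q * (1 * (r * r)) := by ring
      _ ≤ Q * ((r : ℝ) ^ (n - 3) * (r * r)) := by
          apply mul_le_mul_of_nonneg_left _ hQ
          exact mul_le_mul_of_nonneg_right h12 (by positivity)
  -- everything together
  have h14 : (n.factorial : ℝ) * (((r + n - 1).choose n : ℝ) + r * ((m - r : ℕ) : ℝ)) ≤
      (r : ℝ) ^ n + (2 ^ n * n + n.factorial * Q) * ((r : ℝ) ^ n / r) := by
    calc (n.factorial : ℝ) * (((r + n - 1).choose n : ℝ) + r * ((m - r : ℕ) : ℝ))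
        = (n.factorial : ℝ) * ((r + n - 1).choose n : ℝ) +
          n.factorial * (r * ((m - r : ℕ) : ℝ)) := by ring
      _ ≤ (1 + 2 ^ n * (n / r)) * (r : ℝ) ^ n + n.factorial * (Q * ((r : ℝ) ^ n / r)) :=
          add_le_add (h3.trans h5) (mul_le_mul_of_nonneg_left h9 hf.le)
      _ = (r : ℝ) ^ n + (2 ^ n * n + n.factorial * Q) * ((r : ℝ) ^ n / r) := by
          field_simp
          ring
  have hrn' : (0 : ℝ) < (r : ℝ) ^ n / r := by positivity
  have h15 : ((s : ℝ) - 1) * ((n.factorial : ℝ) *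
      (((r + n - 1).choose n : ℝ) + r * ((m - r : ℕ) : ℝ))) <
      (n.factorial : ℝ) * ((m + n - 1).choose n : ℝ) := by
    calc ((s : ℝ) - 1) * ((n.factorial : ℝ) *
          (((r + n - 1).choose n : ℝ) + r * ((m - r : ℕ) : ℝ)))
        ≤ ((s : ℝ) - 1) * ((r : ℝ) ^ n + (2 ^ n * n + n.factorial * Q) * ((r : ℝ) ^ n / r)) :=
          mul_le_mul_of_nonneg_left h14 hs'
      _ = ((s : ℝ) - 1) * (r : ℝ) ^ n +
          (((s : ℝ) - 1) * (2 ^ n * n + n.factorial * Q)) * ((r : ℝ) ^ n / r) := by ring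
      _ < ((s : ℝ) - 1) * (r : ℝ) ^ n + (ε * r) * ((r : ℝ) ^ n / r) := by
          have := mul_lt_mul_of_pos_right hlarge hrn'
          linarith
      _ = ((s : ℝ) - 1 + ε) * (r : ℝ) ^ n := by
          field_simp
      _ ≤ (n.factorial : ℝ) * ((m + n - 1).choose n : ℝ) := hlow.trans h2
  have h16 : ((s : ℝ) - 1) * (((r + n - 1).choose n : ℝ) + r * ((m - r : ℕ) : ℝ)) <
      ((m + n - 1).choose n : ℝ) := by
    have h17 : (n.factorial : ℝ) *
        (((s : ℝ) - 1) * (((r + n - 1).choose n : ℝ) + r * ((m - r : ℕ) : ℝ))) <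
        (n.factorial : ℝ) * ((m + n - 1).choose n : ℝ) := by
      calc (n.factorial : ℝ) *
          (((s : ℝ) - 1) * (((r + n - 1).choose n : ℝ) + r * ((m - r : ℕ) : ℝ)))
          = ((s : ℝ) - 1) * ((n.factorial : ℝ) *
            (((r + n - 1).choose n : ℝ) + r * ((m - r : ℕ) : ℝ))) := by ring
        _ < _ := h15
    exact lt_of_mul_lt_mul_left h17 hf.le
  have h18 : (((s - 1 : ℕ) : ℝ)) = (s : ℝ) - 1 := by
    rw [Nat.cast_sub hs, Nat.cast_one]
  rw [← h18] at h16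
  exact_mod_cast h16

/-- Exact values in windows. -/
theorem window {n q z : ℕ} (hn : 3 ≤ n) (hq : 1 ≤ q) {ε : ℝ} (hε : 0 < ε) :
    ∃ r₀ : ℕ, ∀ r m : ℕ, r₀ ≤ r → r ≤ m →
      (((q ^ n + n * z : ℕ) : ℝ) - 1 + ε) * (r : ℝ) ^ n ≤ (m : ℝ) ^ n →
      ((((q ^ n + n * z : ℕ) : ℝ) - z) * m ≤ (q * ((q ^ n + n * z : ℕ) : ℝ) - ε) * r ∨
        (z = 0 ∧ m ≤ q * r)) →
      IsGenericRank (Fin m) n r (q ^ n + n * z) ∧
        ∀ T ∈ homogeneousSubmodule (Fin m) ℂ n, RankLE (Fin m) n r (q ^ n + n * z) T := by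
  set s := q ^ n + n * z with hs
  have hqn : 1 ≤ q ^ n := Nat.one_le_pow _ _ hq
  have hs1 : 1 ≤ s := by omega
  have hzs : z ≤ s := by
    rw [hs]
    nlinarith
  have hzs1 : z + 1 ≤ s := by
    rw [hs]
    nlinarith
  obtain ⟨R₁, hR₁⟩ := exists_nat_gt (((s : ℝ) - 1) * (2 ^ n * n + n.factorial * ((q * s : ℕ) : ℝ)) / ε)
  obtain ⟨R₂, hR₂⟩ := exists_nat_gt ((q * (s : ℝ) + s * q + (s : ℝ) * q) / ε)
  refine ⟨R₁ + R₂ + n + 1, fun r m hr0 hrm hlow hcase => ?_⟩
  have hr1 : 1 ≤ r := by omega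
  have hr' : (0 : ℝ) < (r : ℝ) := by exact_mod_cast hr1
  have hq' : (1 : ℝ) ≤ (q : ℝ) := by exact_mod_cast hq
  have hs' : (1 : ℝ) ≤ (s : ℝ) := by exact_mod_cast hs1
  have hzs' : (z : ℝ) + 1 ≤ (s : ℝ) := by exact_mod_cast hzs1
  have hz0 : (0 : ℝ) ≤ (z : ℝ) := Nat.cast_nonneg _
  have hm0 : (0 : ℝ) ≤ (m : ℝ) := Nat.cast_nonneg _
  have hmQ : m ≤ (q * s) * r := by
    rcases hcase with h | ⟨_, h⟩
    · have h1 : (m : ℝ) ≤ ((q * s * r : ℕ) : ℝ) := by
        push_cast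
        nlinarith
      exact_mod_cast h1
    · refine h.trans ?_
      nlinarith
  have hblocks : (m + q - 1) / q - (m + q - 1) / q * z / s ≤ r := by
    rcases hcase with h | ⟨hz, h⟩
    · refine blocks_bound (q := q) (m := m) (x := (r : ℝ) - 1) hq hs1 hzs rfl ?_ (by linarith)
      have h1 : (q * (s : ℝ) + s * q + (s : ℝ) * q) < r * ε := by
        rw [div_lt_iff₀ hε] at hR₂
        refine lt_of_lt_of_le hR₂ ?_
        apply mul_le_mul_of_nonneg_right _ hε.le
        have : R₂ ≤ r := by omega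
        exact_mod_cast this
      have h2 : ((s : ℝ) - z) * q ≤ s * q := by nlinarith
      nlinarith
    · subst hz
      rw [Nat.mul_zero, Nat.zero_div, Nat.sub_zero]
      have : (m + q - 1) / q < r + 1 := by
        rw [Nat.div_lt_iff_lt_mul (by omega)]
        have h3 : (r + 1) * q = q * r + q := by ring
        omega
      omega
  have hall : ∀ T ∈ homogeneousSubmodule (Fin m) ℂ n, RankLE (Fin m) n r s T := fun T hT =>
    rankLE_design (by omega) hq hs (blocks_le hq) hrm hblocks T hT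
  refine ⟨generic_of_bounds hrm hall ?_, hall⟩
  refine dim_lt hn hs1 hr1 (by omega) hmQ ?_ hlow
  rw [div_lt_iff₀ hε] at hR₁
  refine lt_of_lt_of_le hR₁ ?_
  rw [mul_comm ε]
  apply mul_le_mul_of_nonneg_right _ hε.le
  have : R₁ ≤ r := by omega
  exact_mod_cast this

end Pool.Agent.H95.GA
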